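import Pool.Agent.MPf3e214.Defs

set_option autoImplicit false
set_option linter.unusedSectionVars false
set_option linter.style.haveILetI false

namespace Pool.Agent.MPf3e214

namespace MultiGraph

variable {V E : Type*} (G : MultiGraph V E) [Fintype V] [Fintype E] [DecidableEq V]

/-! ### General facts about the Laplacian -/

lemma lap_add (f g : V → ℤ) (v : V) :
    G.lap (fun u => f u + g u) v = G.lap f v + G.lap g v := by
  unfold lap
  rw [← Finset.sum_add_distrib]
  refine Finset.sum_congr rfl fun e _ => ?_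
  split_ifs <;> ring

lemma lap_sub (f g : V → ℤ) (v : V) :
    G.lap (fun u => f u - g u) v = G.lap f v - G.lap g v := by
  unfold lap
  rw [← Finset.sum_sub_distrib]
  refine Finset.sum_congr rfl fun e _ => ?_
  split_ifs <;> ring

lemma lap_neg (f : V → ℤ) (v : V) :
    G.lap (fun u => - f u) v = - G.lap f v := by
  unfold lap
  rw [← Finset.sum_neg_distrib]
  refine Finset.sum_congr rfl fun e _ => ?_
  split_ifs <;> ring

lemma lap_const (c : ℤ) (v : V) : G.lap (fun _ => c) v = 0 := by
  unfold lap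
  apply Finset.sum_eq_zero
  intro e _
  split_ifs <;> ring

lemma lap_add_const (f : V → ℤ) (c : ℤ) (v : V) : G.lap (fun u => f u + c) v = G.lap f v := by
  rw [lap_add G f (fun _ => c) v, lap_const, add_zero]

lemma lap_mono {f g : V → ℤ} {v : V} (h : f v = g v) (hle : ∀ u, g u ≤ f u) :
    G.lap f v ≤ G.lap g v := by
  unfold lap
  refine Finset.sum_le_sum fun e _ => ?_
  have h1 := hle (G.tgt e)
  have h2 := hle (G.src e)
  split_ifs <;> linarith

lemma lap_congr {f g : V → ℤ} {v : V} (h : f v = g v)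
    (h1 : ∀ e, G.src e = v → f (G.tgt e) = g (G.tgt e))
    (h2 : ∀ e, G.tgt e = v → f (G.src e) = g (G.src e)) :
    G.lap f v = G.lap g v := by
  unfold lap
  refine Finset.sum_congr rfl fun e _ => ?_
  have h1 := h1 e
  have h2 := h2 e
  split_ifs with ha hb hb
  · rw [h, h1 ha, h2 hb]
  · rw [h, h1 ha]
  · rw [h, h2 hb]
  · rfl

lemma sum_lap (f : V → ℤ) : ∑ v, G.lap f v = 0 := by
  unfold lap
  rw [Finset.sum_comm]
  apply Finset.sum_eq_zero
  intro e _
  rw [Finset.sum_add_distrib]
  have h1 : ∑ x, (if G.src e = x then f x - f (G.tgt e) else 0) = f (G.src e) - f (G.tgt e) := by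
    rw [Finset.sum_ite_eq]
    simp
  have h2 : ∑ x, (if G.tgt e = x then f x - f (G.src e) else 0) = f (G.tgt e) - f (G.src e) := by
    rw [Finset.sum_ite_eq]
    simp
  rw [h1, h2]
  ring

open scoped Classical in
/-- the indicator function of a set of vertices -/
noncomputable def ind (S : Set V) (v : V) : ℤ := if v ∈ S then 1 else 0

omit [Fintype V] [DecidableEq V] in
lemma ind_mem {S : Set V} {v : V} (h : v ∈ S) : ind S v = 1 := by
  unfold ind; rw [if_pos h]

omit [Fintype V] [DecidableEq V] in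
lemma ind_notMem {S : Set V} {v : V} (h : v ∉ S) : ind S v = 0 := by
  unfold ind; rw [if_neg h]

omit [Fintype V] [DecidableEq V] in
lemma ind_le_one (S : Set V) (v : V) : ind S v ≤ 1 := by
  by_cases h : v ∈ S
  · rw [ind_mem h]
  · rw [ind_notMem h]; norm_num

omit [Fintype V] [DecidableEq V] in
lemma ind_nonneg (S : Set V) (v : V) : 0 ≤ ind S v := by
  by_cases h : v ∈ S
  · rw [ind_mem h]; norm_num
  · rw [ind_notMem h]

/-- the set `S` may be fired from `D` without creating debt -/
def Legal (D : V → ℤ) (S : Set V) : Prop := ∀ s ∈ S, G.lap (ind S) s ≤ D s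

lemma lap_ind_nonneg {S : Set V} {s : V} (hs : s ∈ S) : 0 ≤ G.lap (ind S) s := by
  have h := G.lap_mono (f := fun _ => 1) (g := ind S) (v := s) (by rw [ind_mem hs])
    (fun u => ind_le_one S u)
  rw [lap_const] at h
  exact h

lemma lap_ind_nonpos {S : Set V} {s : V} (hs : s ∉ S) : G.lap (ind S) s ≤ 0 := by
  have h := G.lap_mono (g := fun _ => 0) (f := ind S) (v := s) (by rw [ind_notMem hs])
    (fun u => ind_nonneg S u)
  rw [lap_const] at h
  exact h

/-- a set loses out-degree when enlarged -/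
lemma lap_ind_anti {S T : Set V} (hST : S ⊆ T) {s : V} (hs : s ∈ S) :
    G.lap (ind T) s ≤ G.lap (ind S) s := by
  apply G.lap_mono
  · rw [ind_mem hs, ind_mem (hST hs)]
  · intro u
    by_cases hu : u ∈ S
    · rw [ind_mem hu, ind_mem (hST hu)]
    · rw [ind_notMem hu]; exact ind_nonneg T u

lemma fire_legal {D : V → ℤ} {S : Set V} (hD : ∀ v, 0 ≤ D v) (hS : G.Legal D S) (v : V) :
    0 ≤ D v - G.lap (ind S) v := by
  by_cases hv : v ∈ S
  · have := hS v hv; linarith
  · have := G.lap_ind_nonpos hv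
    have := hD v
    linarith

lemma lap_nonneg_of_max {f : V → ℤ} {p : V} (h : ∀ u, f u ≤ f p) : 0 ≤ G.lap f p := by
  have h1 := G.lap_mono (f := fun _ => f p) (g := f) (v := p) rfl h
  rw [lap_const] at h1
  exact h1

/-- the set where `f` is maximal has out-degree at most `lap f` -/
lemma lap_ind_argmax {f : V → ℤ} {s : V} (hs : ∀ u, f u ≤ f s) :
    G.lap (ind {v | ∀ u, f u ≤ f v}) s ≤ G.lap f s := by
  have h1 : G.lap (fun u => f u + (1 - f s)) s = G.lap f s := G.lap_add_const f (1 - f s) s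
  rw [← h1]
  apply G.lap_mono
  · rw [ind_mem (show s ∈ {v | ∀ u, f u ≤ f v} from hs)]; ring
  · intro u
    by_cases hu : u ∈ {v | ∀ u, f u ≤ f v}
    · rw [ind_mem hu]
      have := hs u
      linarith
    · rw [ind_notMem hu]
      have h2 : f u < f s := by
        by_contra h3
        apply hu
        intro w
        have := hs w
        linarith
      linarith

omit [Fintype V] [DecidableEq V] in
lemma argmax_nonempty [Finite V] [Nonempty V] (f : V → ℤ) :
    ({v | ∀ u, f u ≤ f v} : Set V).Nonempty := by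
  obtain ⟨v, hv⟩ := Finite.exists_max f
  exact ⟨v, hv⟩

/-- If an equivalent effective divisor has more chips at `p`, some legal set misses `p`. -/
lemma exists_legal {D f : V → ℤ} {p : V} (hD : ∀ v, 0 ≤ D v - G.lap f v)
    (hp : D p < D p - G.lap f p) : ∃ S : Set V, S.Nonempty ∧ p ∉ S ∧ G.Legal D S := by
  haveI : Nonempty V := ⟨p⟩
  refine ⟨{v | ∀ u, f u ≤ f v}, argmax_nonempty f, ?_, ?_⟩
  · intro h
    have := G.lap_nonneg_of_max (f := f) (p := p) h
    linarith
  · intro s hs
    have h1 := G.lap_ind_argmax (f := f) (s := s) hs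
    have h2 := hD s
    linarith

/-! ### Connectivity -/

omit [Fintype V] [Fintype E] [DecidableEq V] in
/-- every proper nonempty set of vertices of a connected graph is left by an edge -/
lemma Connected.cut {G : MultiGraph V E} (hG : G.Connected) {S : Set V} (h1 : S.Nonempty)
    {y : V} (hy : y ∉ S) : ∃ a ∈ S, ∃ b, b ∉ S ∧ G.Adj a b := by
  obtain ⟨x, hx⟩ := h1
  have h := hG.2 x y
  by_contra hcon
  have hcon' : ∀ a ∈ S, ∀ b, G.Adj a b → b ∈ S := by
    intro a ha b hab
    by_contra hb
    exact hcon ⟨a, ha, b, hb, hab⟩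
  have : y ∈ S := by
    induction h with
    | refl => exact hx
    | tail _ hab ih => exact hcon' _ (by by_contra hc; exact hc (by
        by_contra _; exact hc (ih hc))) _ hab
  exact hy this

/-- an edge leaving `S` at `a` gives positive out-degree -/
lemma lap_ind_pos {S : Set V} {a b : V} (ha : a ∈ S) (hb : b ∉ S) (hab : G.Adj a b) :
    1 ≤ G.lap (ind S) a := by
  obtain ⟨e, he⟩ := hab
  unfold lap
  have hnn : ∀ e' ∈ (Finset.univ : Finset E),
      0 ≤ ((if G.src e' = a then ind S a - ind S (G.tgt e') else 0) +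
        (if G.tgt e' = a then ind S a - ind S (G.src e') else 0)) := by
    intro e' _
    have h1 := ind_le_one S (G.tgt e')
    have h2 := ind_le_one S (G.src e')
    rw [ind_mem ha]
    split_ifs <;> linarith
  refine le_trans ?_ (Finset.single_le_sum hnn (Finset.mem_univ e))
  have hl := G.loopless e
  rcases he with ⟨h1, h2⟩ | ⟨h1, h2⟩
  · have h3 : G.tgt e ≠ a := by rw [← h1]; exact fun h => hl h.symm
    rw [if_pos h1, if_neg h3, h2, ind_mem ha, ind_notMem hb]; norm_num
  · have h3 : G.src e ≠ a := by rw [← h2]; exact fun h => hl h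
    rw [if_pos h2, if_neg h3, h1, ind_mem ha, ind_notMem hb]; norm_num

lemma lap_ind_neg {S : Set V} {a b : V} (ha : a ∈ S) (hb : b ∉ S) (hab : G.Adj a b) :
    G.lap (ind S) b ≤ -1 := by
  have h1 : G.lap (ind Sᶜ) b = - G.lap (ind S) b := by
    have h2 : (ind Sᶜ : V → ℤ) = fun u => 1 - ind S u := by
      funext u
      by_cases hu : u ∈ S
      · rw [ind_mem hu, ind_notMem (by simpa using hu)]; norm_num
      · rw [ind_notMem hu, ind_mem (by simpa using hu)]; norm_num
    rw [h2, G.lap_sub (fun _ => 1) (ind S), lap_const]; ring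
  have h3 := G.lap_ind_pos (S := Sᶜ) (a := b) (b := a) (by simpa using hb) (by simpa using ha)
    (by obtain ⟨e, he⟩ := hab; exact ⟨e, he.symm⟩)
  linarith

lemma lap_injective {G : MultiGraph V E} (hG : G.Connected) {f g : V → ℤ} {z : V}
    (hz : f z = g z) (h : ∀ v, G.lap f v = G.lap g v) : f = g := by
  haveI : Nonempty V := ⟨z⟩
  have key : ∀ f' : V → ℤ, (∀ v, G.lap f' v = 0) → ∀ u v, f' u = f' v := by
    intro f' hf'
    have huniv : ∀ v, v ∈ ({v | ∀ u, f' u ≤ f' v} : Set V) := by
      by_contra hcon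
      push Not at hcon
      obtain ⟨y, hy⟩ := hcon
      obtain ⟨a, ha, b, hb, hab⟩ := hG.cut (argmax_nonempty f') hy
      have h1 := G.lap_ind_pos ha hb hab
      have h2 := G.lap_ind_argmax (f := f') (s := a) ha
      rw [hf' a] at h2
      linarith
    intro u v
    exact le_antisymm (huniv v u) (huniv u v)
  have h1 := key (fun u => f u - g u) (fun v => by rw [lap_sub, h v, sub_self])
  funext v
  have h2 : f v - g v = f z - g z := h1 v z
  rw [hz, sub_self] at h2
  linarith

/-- Reduction relative to a set `Z` of vertices that are not fired. -/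
lemma exists_reduced {G : MultiGraph V E} (hG : G.Connected) {Z : Set V} (hZ : Z.Nonempty)
    {D : V → ℤ} (hD : ∀ v, 0 ≤ D v) :
    ∃ f : V → ℤ, (∀ z ∈ Z, f z = 0) ∧ (∀ v, 0 ≤ D v - G.lap f v) ∧
      ∀ S : Set V, S.Nonempty → (∀ s ∈ S, s ∉ Z) → ¬ G.Legal (fun v => D v - G.lap f v) S := by
  obtain ⟨z0, hz0⟩ := hZ
  let F : Set (V → ℤ) := {f | (∀ z ∈ Z, f z = 0) ∧ ∀ v, 0 ≤ D v - G.lap f v}
  have hF0 : (fun _ => 0 : V → ℤ) ∈ F := by
    refine ⟨fun _ _ => rfl, fun v => ?_⟩
    rw [lap_const]
    have := hD v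
    linarith
  have hfin : F.Finite := by
    have hmaps : Set.MapsTo (fun (f : V → ℤ) (v : V) => D v - G.lap f v) F
        (Set.Icc (fun _ => 0 : V → ℤ) (fun _ => deg D)) := by
      intro f hf
      refine ⟨fun v => hf.2 v, fun v => ?_⟩
      have h1 : ∑ v, (D v - G.lap f v) = deg D := by
        rw [Finset.sum_sub_distrib, sum_lap, sub_zero]; rfl
      rw [← h1]
      exact Finset.single_le_sum (f := fun v => D v - G.lap f v) (fun u _ => hf.2 u)
        (Finset.mem_univ v)
    have hinj : Set.InjOn (fun (f : V → ℤ) (v : V) => D v - G.lap f v) F := by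
      intro f hf g hg hfg
      apply lap_injective hG (z := z0)
      · rw [hf.1 z0 hz0, hg.1 z0 hz0]
      · intro v
        have h2 := congrFun hfg v
        simp only at h2
        linarith
    exact Set.Finite.of_injOn hmaps hinj (Set.finite_Icc _ _)
  obtain ⟨f, hf, hmax⟩ := Set.exists_max_image F (fun f => ∑ v, f v) hfin ⟨_, hF0⟩
  refine ⟨f, hf.1, hf.2, ?_⟩
  intro S hS hSZ hleg
  have hmem : (fun v => f v + ind S v) ∈ F := by
    refine ⟨fun z hz => ?_, fun v => ?_⟩
    · show f z + ind S z = 0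
      rw [hf.1 z hz, ind_notMem (fun h => hSZ z h hz), add_zero]
    · have h1 : 0 ≤ D v - G.lap f v - G.lap (ind S) v :=
        G.fire_legal (D := fun v => D v - G.lap f v) hf.2 hleg v
      rw [lap_add]
      linarith
  have h2 := hmax _ hmem
  simp only [Finset.sum_add_distrib] at h2
  obtain ⟨s, hs⟩ := hS
  have h3 : 1 ≤ ∑ v, ind S v := by
    have h4 : ind S s ≤ ∑ v, ind S v :=
      Finset.single_le_sum (f := fun v => ind S v) (fun u _ => ind_nonneg S u)
      (Finset.mem_univ s)
    rw [ind_mem hs] at h4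
    exact h4
  linarith

/-! ### Linear equivalence and rank -/

lemma LinEquiv.symm {G : MultiGraph V E} {D D' : V → ℤ} (h : G.LinEquiv D D') :
    G.LinEquiv D' D := by
  obtain ⟨f, hf⟩ := h
  refine ⟨fun v => - f v, fun v => ?_⟩
  rw [lap_neg, hf v]; ring

lemma LinEquiv.trans {G : MultiGraph V E} {D D' D'' : V → ℤ} (h : G.LinEquiv D D')
    (h' : G.LinEquiv D' D'') : G.LinEquiv D D'' := by
  obtain ⟨f, hf⟩ := h
  obtain ⟨g, hg⟩ := h'
  refine ⟨fun v => f v + g v, fun v => ?_⟩
  rw [lap_add, hg v, hf v]; ring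

lemma LinEquiv.refl (D : V → ℤ) : G.LinEquiv D D :=
  ⟨fun _ => 0, fun v => by rw [lap_const, sub_zero]⟩

lemma LinEquiv.sub_right {G : MultiGraph V E} {D D' : V → ℤ} (h : G.LinEquiv D D')
    (F : V → ℤ) : G.LinEquiv (fun v => D v - F v) (fun v => D' v - F v) := by
  obtain ⟨f, hf⟩ := h
  exact ⟨f, fun v => by simp only; rw [hf v]; ring⟩

lemma LinEquiv.deg_eq {G : MultiGraph V E} {D D' : V → ℤ} (h : G.LinEquiv D D') :
    deg D' = deg D := by
  obtain ⟨f, hf⟩ := h
  unfold deg
  rw [Finset.sum_congr rfl (fun v _ => hf v), Finset.sum_sub_distrib, sum_lap, sub_zero]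

lemma EquivEffective.of_linEquiv {G : MultiGraph V E} {D D' : V → ℤ} (h : G.LinEquiv D D')
    (hD : G.EquivEffective D) : G.EquivEffective D' := by
  obtain ⟨D'', h1, h2⟩ := hD
  exact ⟨D'', h.symm.trans h1, h2⟩

lemma EquivEffective.mono {G : MultiGraph V E} {D D' : V → ℤ} (h : ∀ v, D v ≤ D' v)
    (hD : G.EquivEffective D) : G.EquivEffective D' := by
  obtain ⟨D'', ⟨f, hf⟩, h2⟩ := hD
  refine ⟨fun v => D' v - G.lap f v, ⟨f, fun v => rfl⟩, fun v => ?_⟩
  have := h2 v
  have := hf v
  have := h v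
  linarith

lemma equivEffective_of_script {D : V → ℤ} (f : V → ℤ) (h : ∀ v, 0 ≤ D v - G.lap f v) :
    G.EquivEffective D := ⟨_, ⟨f, fun _ => rfl⟩, h⟩

lemma EquivEffective.script {G : MultiGraph V E} {D : V → ℤ} (h : G.EquivEffective D) :
    ∃ f : V → ℤ, ∀ v, 0 ≤ D v - G.lap f v := by
  obtain ⟨D'', ⟨f, hf⟩, h2⟩ := h
  exact ⟨f, fun v => by rw [← hf v]; exact h2 v⟩

lemma EquivEffective.deg_nonneg {G : MultiGraph V E} {D : V → ℤ} (h : G.EquivEffective D) :
    0 ≤ deg D := by
  obtain ⟨D'', h1, h2⟩ := h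
  rw [← h1.deg_eq]
  exact Finset.sum_nonneg fun v _ => h2 v

/-- one chip at `q` -/
def chip (q : V) (v : V) : ℤ := if v = q then 1 else 0

lemma chip_nonneg (q v : V) : 0 ≤ chip q v := by
  unfold chip; split_ifs <;> norm_num

lemma chip_self (q : V) : chip q q = 1 := by
  unfold chip; rw [if_pos rfl]

lemma chip_ne {q v : V} (h : v ≠ q) : chip q v = 0 := by
  unfold chip; rw [if_neg h]

lemma deg_chip (q : V) : deg (chip q) = 1 := by
  unfold deg chip
  rw [Finset.sum_ite_eq']
  simp

lemma deg_add (D D' : V → ℤ) : deg (fun v => D v + D' v) = deg D + deg D' := by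
  unfold deg; rw [Finset.sum_add_distrib]

lemma deg_sub (D D' : V → ℤ) : deg (fun v => D v - D' v) = deg D - deg D' := by
  unfold deg; rw [Finset.sum_sub_distrib]

lemma rankGE_zero_iff {D : V → ℤ} : G.RankGE D 0 ↔ G.EquivEffective D := by
  constructor
  · intro h
    have h1 := h (fun _ => 0) (fun _ => le_refl _) (by unfold deg; simp)
    exact h1.mono (fun v => by simp)
  · intro h F hF hF0
    have h1 : ∀ v, F v = 0 := by
      intro v
      have h2 : ∑ v, F v = 0 := by simpa [deg] using hF0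
      have h3 := (Finset.sum_eq_zero_iff_of_nonneg (fun v _ => hF v)).1 h2
      exact h3 v (Finset.mem_univ v)
    exact h.mono (fun v => by rw [h1 v]; simp)

lemma rankGE_succ_iff {D : V → ℤ} {r : ℕ} :
    G.RankGE D (r + 1) ↔ ∀ q, G.RankGE (fun v => D v - chip q v) r := by
  constructor
  · intro h q F hF hFr
    have h1 := h (fun v => chip q v + F v)
      (fun v => add_nonneg (chip_nonneg q v) (hF v))
      (by rw [deg_add, deg_chip, hFr]; push_cast; ring)
    exact h1.mono (fun v => by linarith)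
  · intro h F hF hFr
    obtain ⟨q, hq⟩ : ∃ q, 1 ≤ F q := by
      by_contra hcon
      push Not at hcon
      have h1 : deg F ≤ 0 := Finset.sum_nonpos fun v _ => by
        have := hcon v; linarith
      rw [hFr] at h1
      push_cast at h1
      linarith
    have h1 := h q (fun v => F v - chip q v) (fun v => by
      by_cases hv : v = q
      · subst hv; rw [chip_self]; linarith
      · rw [chip_ne hv]; have := hF v; linarith) (by
      rw [deg_sub, deg_chip, hFr]; push_cast; ring)
    exact h1.mono (fun v => by linarith)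

lemma rankGE_of_succ [Nonempty V] {D : V → ℤ} {r : ℕ} (h : G.RankGE D (r + 1)) :
    G.RankGE D r := by
  intro F hF hFr
  have h1 := (G.rankGE_succ_iff).1 h (Classical.arbitrary V) F hF hFr
  exact h1.mono (fun v => by
    have := chip_nonneg (Classical.arbitrary V) v
    linarith)

lemma rankGE_anti [Nonempty V] {D : V → ℤ} {r s : ℕ} (hrs : r ≤ s) (h : G.RankGE D s) :
    G.RankGE D r := by
  induction s with
  | zero =>
    have : r = 0 := by omega
    subst this; exact h
  | succ n ih =>
    rcases Nat.lt_or_ge n r with h1 | h1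
    · have : r = n + 1 := by omega
      subst this; exact h
    · exact ih h1 (G.rankGE_of_succ h)

lemma hasRank_iff [Nonempty V] {D : V → ℤ} {r : ℕ} :
    G.HasRank D r ↔ G.RankGE D r ∧ ¬ G.RankGE D (r + 1) := by
  constructor
  · intro h
    refine ⟨h.1, fun h1 => ?_⟩
    have := h.2 h1
    omega
  · rintro ⟨h1, h2⟩
    refine ⟨h1, fun s hs => ?_⟩
    by_contra hcon
    exact h2 (G.rankGE_anti (by omega) hs)

lemma RankGE.of_linEquiv {G : MultiGraph V E} {D D' : V → ℤ} {r : ℕ} (h : G.LinEquiv D D')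
    (hD : G.RankGE D r) : G.RankGE D' r := by
  intro F hF hFr
  exact (hD F hF hFr).of_linEquiv (h.sub_right F)

lemma rankGE_deg [Nonempty V] {D : V → ℤ} {r : ℕ} (h : G.RankGE D r) : (r : ℤ) ≤ deg D := by
  have h1 := h (fun v => r * chip (Classical.arbitrary V) v)
    (fun v => mul_nonneg (by positivity) (chip_nonneg _ v))
    (by unfold deg; rw [← Finset.mul_sum]
        have := deg_chip (Classical.arbitrary V)
        unfold deg at this
        rw [this, mul_one])
  have h2 := h1.deg_nonneg
  rw [deg_sub] at h2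
  have h3 : deg (fun v => (r : ℤ) * chip (Classical.arbitrary V) v) = r := by
    unfold deg; rw [← Finset.mul_sum]
    have := deg_chip (Classical.arbitrary V)
    unfold deg at this
    rw [this, mul_one]
  rw [h3] at h2
  linarith

/-- If every divisor of exact rank one has degree at least `k`, so has every divisor of rank
at least one. -/
lemma le_deg_of_gonality [Nonempty V] {k : ℤ} (hk : G.IsGonality 1 k) :
    ∀ (n : ℕ) (D : V → ℤ), deg D = n → G.RankGE D 1 → k ≤ deg D := by
  intro n
  induction n with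
  | zero =>
    intro D hD h
    have := G.rankGE_deg h
    rw [hD] at this
    norm_num at this
  | succ n ih =>
    intro D hD h
    by_cases h2 : G.RankGE D 2
    · have h3 := (G.rankGE_succ_iff).1 h2 (Classical.arbitrary V)
      have h4 := ih _ (by rw [deg_sub, deg_chip, hD]; push_cast; ring) h3
      rw [deg_sub, deg_chip] at h4
      linarith
    · exact hk.2 ⟨D, G.hasRank_iff.2 ⟨h, h2⟩, rfl⟩

lemma le_deg_of_gonality' [Nonempty V] {k : ℤ} (hk : G.IsGonality 1 k) {D : V → ℤ}
    (h : G.RankGE D 1) : k ≤ deg D := by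
  have h1 := G.rankGE_deg h
  exact G.le_deg_of_gonality hk (deg D).toNat D (by
    have : (0 : ℤ) ≤ deg D := le_trans (by norm_num) h1
    exact (Int.toNat_of_nonneg this).symm) h

/-- If all divisors of rank at least one have degree at least `k` then a divisor of degree `k`
and rank at least one realises the first gonality. -/
lemma realises_one [Nonempty V] {k : ℤ} (hlow : ∀ D : V → ℤ, G.RankGE D 1 → k ≤ deg D)
    {D : V → ℤ} (hD : G.RankGE D 1) (hdeg : deg D = k) : G.HasRank D 1 ∧ G.IsGonality 1 k := by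
  have h1 : G.HasRank D 1 := by
    rw [hasRank_iff]
    refine ⟨hD, fun h2 => ?_⟩
    have h3 := hlow _ ((G.rankGE_succ_iff).1 h2 (Classical.arbitrary V))
    rw [deg_sub, deg_chip] at h3
    linarith
  refine ⟨h1, ⟨D, h1, hdeg⟩, ?_⟩
  rintro d ⟨D', hD', rfl⟩
  exact hlow D' hD'.1

lemma realises_two [Nonempty V] {k : ℤ} (hlow : ∀ D : V → ℤ, G.RankGE D 1 → k ≤ deg D)
    {D : V → ℤ} (hD : G.RankGE D 2) (hdeg : deg D = k + 1) :
    G.HasRank D 2 ∧ G.IsGonality 2 (k + 1) := by
  have hlow2 : ∀ D : V → ℤ, G.RankGE D 2 → k + 1 ≤ deg D := by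
    intro D' hD'
    have h3 := hlow _ ((G.rankGE_succ_iff).1 hD' (Classical.arbitrary V))
    rw [deg_sub, deg_chip] at h3
    linarith
  have h1 : G.HasRank D 2 := by
    rw [hasRank_iff]
    refine ⟨hD, fun h2 => ?_⟩
    have h3 := hlow2 _ ((G.rankGE_succ_iff).1 h2 (Classical.arbitrary V))
    rw [deg_sub, deg_chip] at h3
    linarith
  refine ⟨h1, ⟨D, h1, hdeg⟩, ?_⟩
  rintro d ⟨D', hD', rfl⟩
  exact hlow2 D' hD'.1

end MultiGraph

end Pool.Agent.MPf3e214
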