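import Pool.Agent.MPf3e214.Basic

set_option autoImplicit false
set_option linter.unusedSectionVars false

namespace Pool.Agent.MPf3e214

namespace MultiGraph

variable {V E : Type*} (G : MultiGraph V E) [Fintype V] [Fintype E] [DecidableEq V]

/-- the number of edges joining two vertices -/
def mult (x y : V) : ℤ :=
  ∑ e, ((if G.src e = x ∧ G.tgt e = y then 1 else 0) +
    (if G.src e = y ∧ G.tgt e = x then 1 else 0))

lemma mult_comm (x y : V) : G.mult x y = G.mult y x := by
  unfold mult
  exact Finset.sum_congr rfl fun e _ => add_comm _ _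

lemma mult_nonneg (x y : V) : 0 ≤ G.mult x y := by
  unfold mult
  apply Finset.sum_nonneg
  intro e _
  split_ifs <;> norm_num

lemma adj_symm {x y : V} (h : G.Adj x y) : G.Adj y x := by
  obtain ⟨e, he⟩ := h
  exact ⟨e, he.symm⟩

lemma adj_iff {x y : V} : G.Adj x y ↔ G.mult x y ≠ 0 := by
  constructor
  · rintro ⟨e, he⟩ h0
    unfold mult at h0
    rw [Finset.sum_eq_zero_iff_of_nonneg (fun e _ => by split_ifs <;> norm_num)] at h0
    have h1 := h0 e (Finset.mem_univ e)
    rcases he with he | he
    · rw [if_pos he] at h1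
      split_ifs at h1 <;> norm_num at h1
    · rw [if_pos he] at h1
      split_ifs at h1 <;> norm_num at h1
  · intro h
    by_contra hcon
    apply h
    unfold mult
    apply Finset.sum_eq_zero
    intro e _
    rw [if_neg (fun h => hcon ⟨e, Or.inl h⟩), if_neg (fun h => hcon ⟨e, Or.inr h⟩)]
    norm_num

lemma mult_pos_of_adj {x y : V} (h : G.Adj x y) : 1 ≤ G.mult x y := by
  have h1 := G.adj_iff.1 h
  have h2 := G.mult_nonneg x y
  omega

lemma mult_self (x : V) : G.mult x x = 0 := by
  by_contra h
  obtain ⟨e, he⟩ := G.adj_iff.2 h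
  rcases he with ⟨h1, h2⟩ | ⟨h1, h2⟩ <;> exact G.loopless e (h1.trans h2.symm)

lemma lap_eq (f : V → ℤ) (v : V) : G.lap f v = ∑ u, G.mult v u * (f v - f u) := by
  unfold mult lap
  simp_rw [Finset.sum_mul]
  rw [Finset.sum_comm]
  refine Finset.sum_congr rfl fun e _ => ?_
  simp_rw [add_mul]
  rw [Finset.sum_add_distrib]
  congr 1
  · by_cases h : G.src e = v
    · rw [if_pos h, Finset.sum_eq_single (G.tgt e)]
      · rw [if_pos ⟨h, rfl⟩]; ring
      · intro b _ hb
        rw [if_neg (fun h' => hb h'.2.symm)]; ring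
      · intro h'; exact absurd (Finset.mem_univ _) h'
    · rw [if_neg h, Finset.sum_eq_zero]
      intro u _
      rw [if_neg (fun h' => h h'.1)]; ring
  · by_cases h : G.tgt e = v
    · rw [if_pos h, Finset.sum_eq_single (G.src e)]
      · rw [if_pos ⟨rfl, h⟩]; ring
      · intro b _ hb
        rw [if_neg (fun h' => hb h'.1.symm)]; ring
      · intro h'; exact absurd (Finset.mem_univ _) h'
    · rw [if_neg h, Finset.sum_eq_zero]
      intro u _
      rw [if_neg (fun h' => h h'.2)]; ring

/-- out-degree when all edges leaving `A` at `a` go to `y` -/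
lemma lap_ind_single {A : Set V} {a y : V} (ha : a ∈ A) (hy : y ∉ A)
    (h : ∀ y', y' ∉ A → y' ≠ y → G.mult a y' = 0) : G.lap (ind A) a = G.mult a y := by
  rw [lap_eq, Finset.sum_eq_single y]
  · rw [ind_mem ha, ind_notMem hy]; ring
  · intro b _ hb
    by_cases hbA : b ∈ A
    · rw [ind_mem ha, ind_mem hbA]; ring
    · rw [h b hbA hb]; ring
  · intro h'; exact absurd (Finset.mem_univ _) h'

lemma lap_ind_none {A : Set V} {a : V} (ha : a ∈ A)
    (h : ∀ y', y' ∉ A → G.mult a y' = 0) : G.lap (ind A) a = 0 := by
  rw [lap_eq]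
  apply Finset.sum_eq_zero
  intro b _
  by_cases hbA : b ∈ A
  · rw [ind_mem ha, ind_mem hbA]; ring
  · rw [h b hbA]; ring

/-- the recursive structure of quasi-banana graphs: `c` is joined by `N + 1` edges to each vertex
of a level `L`, `L` is a simple clique, and the later levels hang at one vertex `u` of `L`. -/
inductive Chain : V → Finset V → ℤ → Prop
  | nil (c : V) (N : ℤ) : Chain c ∅ N
  | cons (c : V) (S : Finset V) (N : ℤ) (L : Finset V) (u : V) (hL : L ⊆ S) (hu : u ∈ L)
      (h1 : ∀ w ∈ L, G.mult c w = N + 1)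
      (h2 : ∀ w ∈ L, ∀ w' ∈ L, w ≠ w' → G.mult w w' = 1)
      (h3 : ∀ x ∈ S \ L, ∀ y, y ∉ S \ L → y ≠ u → G.mult x y = 0)
      (h4 : Chain u (S \ L) (N + L.card)) : Chain c S N

/-- the standing assumptions on a quasi-banana graph with special vertex `v0` -/
structure QB (v0 : V) : Prop where
  conn : G.Connected
  low : ∀ D : V → ℤ, G.RankGE D 1 → (Fintype.card V : ℤ) ≤ deg D
  rank2 : G.RankGE (fun v => 1 + chip v0 v) 2

/-- the state reached after treating some levels -/
structure Ctx (v0 c : V) (S : Finset V) (N : ℤ) : Prop where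
  hc : c ∉ S
  att : ∀ x ∈ S, ∀ y, y ∉ S → y ≠ c → G.mult x y = 0
  card : N + S.card = Fintype.card V
  N1 : 1 ≤ N
  pump : G.LinEquiv (fun v => 1 + chip v0 v)
    (fun v => (N + 1) * chip c v + ind (S : Set V) v)

variable {G} {v0 c : V} {S : Finset V} {N : ℤ}

lemma deg_ind (S : Finset V) : deg (ind (S : Set V)) = S.card := by
  unfold deg
  rw [← Finset.sum_subset (Finset.subset_univ S)
    (fun v _ hv => ind_notMem (by simpa using hv))]
  rw [Finset.sum_congr rfl (fun v hv => ind_mem (by simpa using hv))]
  simp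

lemma deg_const (k : ℤ) : deg (fun _ : V => k) = Fintype.card V * k := by
  unfold deg
  rw [Finset.sum_const]
  simp

lemma deg_mul_chip (k : ℤ) (q : V) : deg (fun v => k * chip q v) = k := by
  unfold deg
  rw [← Finset.mul_sum]
  have := deg_chip q
  unfold deg at this
  rw [this, mul_one]

/-- every proper nonempty set has a vertex of out-degree at least two -/
lemma QB.two_le (h : G.QB v0) {A : Set V} (hA : A.Nonempty) {y : V} (hy : y ∉ A) :
    ∃ a ∈ A, 2 ≤ G.lap (ind A) a := by
  by_contra hcon
  push Not at hcon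
  obtain ⟨a, ha, b, hb, hab⟩ := h.conn.cut hA hy
  have hrank : G.RankGE (fun v => 1 - chip b v) 1 := by
    rw [rankGE_succ_iff]
    intro q
    rw [rankGE_zero_iff]
    by_cases hq : q = b
    · subst hq
      refine G.equivEffective_of_script (ind A) fun v => ?_
      by_cases hv : v ∈ A
      · have h1 := hcon v hv
        have hvq : v ≠ q := fun h => hb (h ▸ hv)
        rw [chip_ne hvq]
        linarith
      · by_cases hvq : v = q
        · subst hvq
          have h2 := G.lap_ind_neg ha hb hab
          rw [chip_self]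
          linarith
        · have h2 := G.lap_ind_nonpos hv
          rw [chip_ne hvq]
          linarith
    · refine G.equivEffective_of_script (fun _ => 0) fun v => ?_
      rw [lap_const]
      by_cases hvb : v = b
      · subst hvb
        rw [chip_self, chip_ne (fun h => hq h.symm)]; norm_num
      · rw [chip_ne hvb]
        have : chip q v ≤ 1 := by unfold chip; split_ifs <;> norm_num
        linarith
  have h1 := h.low _ hrank
  rw [deg_sub, deg_chip, deg_const] at h1
  linarith

/-- no divisor of small degree with at least `N` chips on `c` reaches all vertices of `S` -/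
lemma Ctx.no_reach (h : G.QB v0) (hS : G.Ctx v0 c S N) {Y : V → ℤ} (hY : ∀ v, 0 ≤ Y v)
    (hYc : N ≤ Y c) (hdeg : deg Y < Fintype.card V)
    (hr : ∀ q ∈ S, G.EquivEffective (fun v => Y v - chip q v)) : False := by
  have hrank : G.RankGE Y 1 := by
    rw [rankGE_succ_iff]
    intro q
    rw [rankGE_zero_iff]
    by_cases hq : q ∈ S
    · exact hr q hq
    by_cases hqc : q = c
    · subst hqc
      refine G.equivEffective_of_script (fun _ => 0) fun v => ?_
      rw [lap_const]
      by_cases hvb : v = q
      · subst hvb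
        rw [chip_self]
        have := hS.N1
        linarith
      · rw [chip_ne hvb]
        have := hY v
        linarith
    · obtain ⟨f, hf⟩ := hS.pump.symm
      refine G.equivEffective_of_script f fun v => ?_
      have h1 := hf v
      simp only at h1
      have h2 := chip_nonneg v0 v
      by_cases hvc : v = c
      · subst hvc
        rw [chip_self, ind_notMem (by simpa using hS.hc)] at h1
        rw [chip_ne (fun h => hqc h.symm)]
        linarith
      · rw [chip_ne hvc] at h1
        by_cases hvS : v ∈ S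
        · rw [ind_mem (by simpa using hvS)] at h1
          rw [chip_ne (show v ≠ q by rintro rfl; exact hq hvS)]
          have := hY v
          linarith
        · rw [ind_notMem (by simpa using hvS)] at h1
          have : chip q v ≤ 1 := by unfold chip; split_ifs <;> norm_num
          have := hY v
          linarith
  have h1 := h.low _ hrank
  linarith

/-- every vertex of `S` is separated from `c` by an exit vertex -/
lemma Ctx.exit (h : G.QB v0) (hS : G.Ctx v0 c S N) {x : V} (hx : x ∈ S) :
    ∃ (A : Set V) (y : V), c ∈ A ∧ x ∉ A ∧ (∀ p, p ∉ S → p ∈ A) ∧ y ∈ S ∧ y ∉ A ∧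
      G.mult c y = N + 1 ∧ (∀ a ∈ A, a ≠ c → G.mult a y ≤ 1) ∧
      (∀ a ∈ A, ∀ y', y' ∉ A → y' ≠ y → G.mult a y' = 0) := by
  have hxc : x ≠ c := fun h => hS.hc (h ▸ hx)
  have hX : G.RankGE (fun v => (N + 1) * chip c v + ind (S : Set V) v) 2 :=
    h.rank2.of_linEquiv hS.pump
  obtain ⟨f, hf⟩ := ((G.rankGE_zero_iff).1 ((G.rankGE_succ_iff).1
    ((G.rankGE_succ_iff).1 hX x) x)).script
  have hindS : ∀ v, v ∈ S → ind (S : Set V) v = 1 := fun v hv => ind_mem (by simpa using hv)
  have hindS' : ∀ v, v ∉ S → ind (S : Set V) v = 0 := fun v hv => ind_notMem (by simpa using hv)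
  obtain ⟨A0, hA0, hxA0, hleg⟩ := G.exists_legal
    (D := fun v => (N + 1) * chip c v + ind (S : Set V) v - chip x v) (f := f) (p := x)
    (fun v => by
      have h1 := hf v
      have h2 := chip_nonneg x v
      linarith)
    (by
      have h1 := hf x
      rw [chip_self, chip_ne hxc, hindS x hx] at h1
      linarith)
  have hcA0 : c ∈ A0 := by
    obtain ⟨a, ha, h2⟩ := h.two_le hA0 hxA0
    have h3 := hleg a ha
    simp only at h3
    by_contra hc
    have hac : a ≠ c := fun h => hc (h ▸ ha)
    rw [chip_ne hac] at h3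
    have h4 := ind_le_one (S : Set V) a
    have h5 := chip_nonneg x a
    linarith
  let A : Set V := A0 ∪ {p | p ∉ S}
  have hcA : c ∈ A := Or.inl hcA0
  have hxA : x ∉ A := by
    rintro (h1 | h1)
    · exact hxA0 h1
    · exact h1 hx
  have hnS : ∀ p, p ∉ S → p ∈ A := fun p hp => Or.inr hp
  have hlegA : ∀ a ∈ A, G.lap (ind A) a ≤
      (N + 1) * chip c a + ind (S : Set V) a - chip x a := by
    intro a ha
    by_cases haA0 : a ∈ A0
    · exact le_trans (G.lap_ind_anti (Set.subset_union_left) haA0) (hleg a haA0)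
    · have haS : a ∉ S := by
        rcases ha with h1 | h1
        · exact absurd h1 haA0
        · exact h1
      have hac : a ≠ c := fun h => haA0 (h ▸ hcA0)
      have hax : a ≠ x := fun h => hxA (h ▸ ha)
      rw [G.lap_ind_none ha, chip_ne hac, chip_ne hax, hindS' a haS]
      · norm_num
      · intro y' hy'
        have hy'S : y' ∈ S := by
          by_contra hcon
          exact hy' (hnS y' hcon)
        rw [mult_comm]
        exact hS.att y' hy'S a haS hac
  obtain ⟨a0, ha0, y, hy, hay⟩ := h.conn.cut (S := A) ⟨c, hcA⟩ hxA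
  have hyS : y ∈ S := by
    by_contra hcon
    exact hy (hnS y hcon)
  have hyc : y ≠ c := fun h => hy (h ▸ hcA)
  -- reaching exits by firing `A`
  have hreach : ∀ (Y : V → ℤ), (∀ v, 0 ≤ Y v) → G.Legal Y A → ∀ b, b ∉ A →
      (∃ a ∈ A, G.Adj a b) → G.EquivEffective (fun v => Y v - chip b v) := by
    intro Y hY hYA b hb ⟨a, ha, hab⟩
    refine G.equivEffective_of_script (ind A) fun v => ?_
    have h1 := G.fire_legal hY hYA v
    by_cases hvb : v = b
    · subst hvb
      rw [chip_self]
      have h2 := G.lap_ind_neg ha hb hab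
      have h3 := hY v
      linarith
    · rw [chip_ne hvb]
      linarith
  have hN := hS.N1
  -- the out-degree of `c` is exactly `N + 1`
  have hcout : G.lap (ind A) c = N + 1 := by
    have h1 := hlegA c hcA
    rw [chip_self, chip_ne hxc.symm, hindS' c hS.hc] at h1
    by_contra hne
    have hlt : G.lap (ind A) c ≤ N := by
      have : G.lap (ind A) c ≤ N + 1 := by linarith
      omega
    let Y : V → ℤ := fun v => N * chip c v + ind (S : Set V) v - chip y v
    have hYnn : ∀ v, 0 ≤ Y v := by
      intro v
      simp only [Y]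
      by_cases hvy : v = y
      · subst hvy
        rw [chip_self, hindS v hyS, chip_ne hyc]; norm_num
      · rw [chip_ne hvy]
        have := ind_nonneg (S : Set V) v
        have := chip_nonneg c v
        nlinarith
    apply hS.no_reach h (Y := Y) hYnn
    · simp only [Y]
      rw [chip_self, hindS' c hS.hc, chip_ne hyc.symm]
      linarith
    · have hd : deg Y = N + S.card - 1 := by
        simp only [Y]
        rw [deg_sub, deg_add, deg_mul_chip, deg_ind, deg_chip]
      rw [hd, hS.card]
      linarith
    · intro q hq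
      by_cases hqy : q = y
      · subst hqy
        refine hreach Y hYnn ?_ q hy ⟨a0, ha0, hay⟩
        intro a ha
        simp only [Y]
        by_cases hac : a = c
        · subst hac
          rw [chip_self, hindS' a hS.hc, chip_ne hyc.symm]
          linarith
        · have h2 := hlegA a ha
          have hax : a ≠ x := fun h => hxA (h ▸ ha)
          have haq : a ≠ q := fun h => hy (h ▸ ha)
          rw [chip_ne hac, chip_ne hax] at h2
          rw [chip_ne hac, chip_ne haq]
          linarith
      · refine G.equivEffective_of_script (fun _ => 0) fun v => ?_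
        rw [lap_const]
        by_cases hvq : v = q
        · subst hvq
          simp only [Y]
          rw [chip_self, hindS v hq, chip_ne hqy]
          have := chip_nonneg c v
          nlinarith
        · rw [chip_ne hvq]
          have := hYnn v
          linarith
  -- uniqueness of the exit
  have huniq : ∀ a ∈ A, ∀ y', y' ∉ A → y' ≠ y → G.mult a y' = 0 := by
    intro a ha y' hy' hne
    by_contra hmul
    have hadj : G.Adj a y' := G.adj_iff.2 hmul
    have hy'S : y' ∈ S := by
      by_contra hcon
      exact hy' (hnS y' hcon)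
    have hy'c : y' ≠ c := fun h => hy' (h ▸ hcA)
    let Y : V → ℤ := fun v => (N + 1) * chip c v + ind (S : Set V) v - chip y v - chip y' v
    have hYnn : ∀ v, 0 ≤ Y v := by
      intro v
      simp only [Y]
      by_cases hvy : v = y
      · subst hvy
        rw [chip_self, hindS v hyS, chip_ne hyc, chip_ne (fun h => hne h.symm)]; norm_num
      · rw [chip_ne hvy]
        by_cases hvy' : v = y'
        · subst hvy'
          rw [chip_self, hindS v hy'S, chip_ne hy'c]; norm_num
        · rw [chip_ne hvy']
          have := ind_nonneg (S : Set V) v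
          have := chip_nonneg c v
          nlinarith
    have hYleg : G.Legal Y A := by
      intro a ha
      simp only [Y]
      have h2 := hlegA a ha
      have hax : a ≠ x := fun h => hxA (h ▸ ha)
      have hay : a ≠ y := fun h => hy (h ▸ ha)
      have hay' : a ≠ y' := fun h => hy' (h ▸ ha)
      rw [chip_ne hax] at h2
      rw [chip_ne hay, chip_ne hay']
      linarith
    apply hS.no_reach h (Y := Y) hYnn
    · simp only [Y]
      rw [chip_self, hindS' c hS.hc, chip_ne hyc.symm, chip_ne hy'c.symm]
      linarith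
    · have hd : deg Y = N + 1 + S.card - 1 - 1 := by
        simp only [Y]
        rw [deg_sub, deg_sub, deg_add, deg_mul_chip, deg_ind, deg_chip, deg_chip]
      rw [hd]
      have := hS.card
      linarith
    · intro q hq
      by_cases hqy : q = y
      · subst hqy
        exact hreach Y hYnn hYleg q hy ⟨a0, ha0, hay⟩
      by_cases hqy' : q = y'
      · subst hqy'
        exact hreach Y hYnn hYleg q hy' ⟨a, ha, hadj⟩
      refine G.equivEffective_of_script (fun _ => 0) fun v => ?_
      rw [lap_const]
      by_cases hvq : v = q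
      · subst hvq
        simp only [Y]
        rw [chip_self, hindS v hq, chip_ne hqy, chip_ne hqy']
        have := chip_nonneg c v
        nlinarith
      · rw [chip_ne hvq]
        have := hYnn v
        linarith
  refine ⟨A, y, hcA, hxA, hnS, hyS, hy, ?_, ?_, huniq⟩
  · rw [← hcout, G.lap_ind_single hcA hy (huniq c hcA)]
  · intro a ha hac
    rw [← G.lap_ind_single ha hy (huniq a ha)]
    have h2 := hlegA a ha
    have hax : a ≠ x := fun h => hxA (h ▸ ha)
    rw [chip_ne hax, chip_ne hac] at h2
    have h3 := ind_le_one (S : Set V) a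
    linarith

/-- No divisor `(N+1) c + 1_S - x - x'` reaches both `x` and `x'`. -/
lemma Ctx.no_two (h : G.QB v0) (hS : G.Ctx v0 c S N) {x x' : V} (hx : x ∈ S) (hx' : x' ∈ S)
    (hne : x ≠ x')
    (h1 : G.EquivEffective (fun v => (N + 1) * chip c v + ind (S : Set V) v - chip x v -
      chip x' v - chip x v))
    (h2 : G.EquivEffective (fun v => (N + 1) * chip c v + ind (S : Set V) v - chip x v -
      chip x' v - chip x' v)) : False := by
  have hxc : x ≠ c := fun h => hS.hc (h ▸ hx)
  have hx'c : x' ≠ c := fun h => hS.hc (h ▸ hx')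
  have hN := hS.N1
  have hindS : ∀ v, v ∈ S → ind (S : Set V) v = 1 := fun v hv => ind_mem (by simpa using hv)
  have hindS' : ∀ v, v ∉ S → ind (S : Set V) v = 0 := fun v hv => ind_notMem (by simpa using hv)
  let Y : V → ℤ := fun v => (N + 1) * chip c v + ind (S : Set V) v - chip x v - chip x' v
  have hYnn : ∀ v, 0 ≤ Y v := by
    intro v
    simp only [Y]
    by_cases hvy : v = x
    · subst hvy
      rw [chip_self, hindS v hx, chip_ne hxc, chip_ne hne]; norm_num
    · rw [chip_ne hvy]
      by_cases hvy' : v = x'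
      · subst hvy'
        rw [chip_self, hindS v hx', chip_ne hx'c]; norm_num
      · rw [chip_ne hvy']
        have := ind_nonneg (S : Set V) v
        have := chip_nonneg c v
        nlinarith
  apply hS.no_reach h (Y := Y) hYnn
  · simp only [Y]
    rw [chip_self, hindS' c hS.hc, chip_ne hxc.symm, chip_ne hx'c.symm]
    linarith
  · have hd : deg Y = N + 1 + S.card - 1 - 1 := by
      simp only [Y]
      rw [deg_sub, deg_sub, deg_add, deg_mul_chip, deg_ind, deg_chip, deg_chip]
    rw [hd]
    have := hS.card
    linarith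
  · intro q hq
    by_cases hqy : q = x
    · subst hqy
      exact h1
    by_cases hqy' : q = x'
    · subst hqy'
      exact h2
    refine G.equivEffective_of_script (fun _ => 0) fun v => ?_
    rw [lap_const]
    by_cases hvq : v = q
    · subst hvq
      simp only [Y]
      rw [chip_self, hindS v hq, chip_ne hqy, chip_ne hqy']
      have := chip_nonneg c v
      nlinarith
    · rw [chip_ne hvq]
      have := hYnn v
      linarith

/-- If `A` separates `x` from `c` with exit `w` and `x'` lies in `A` off the neighbourhood of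
`w`, then `(N+1) c + 1_S - x - x'` reaches `x`. -/
lemma Ctx.reach2 (h : G.QB v0) (hS : G.Ctx v0 c S N) {x x' w : V} {A : Set V} (hx : x ∈ S)
    (hx' : x' ∈ S) (hcA : c ∈ A) (hxA : x ∉ A) (hwS : w ∈ S) (hwA : w ∉ A)
    (hcw : G.mult c w = N + 1) (haw : ∀ a ∈ A, a ≠ c → G.mult a w ≤ 1)
    (hout : ∀ a ∈ A, ∀ y', y' ∉ A → y' ≠ w → G.mult a y' = 0)
    (hx'A : x' ∈ A) (hx'w : G.mult x' w = 0) :
    G.EquivEffective (fun v => (N + 1) * chip c v + ind (S : Set V) v - chip x v -
      chip x' v - chip x v) := by
  have hxc : x ≠ c := fun h => hS.hc (h ▸ hx)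
  have hx'c : x' ≠ c := fun h => hS.hc (h ▸ hx')
  have hwc : w ≠ c := fun h => hS.hc (h ▸ hwS)
  have hN := hS.N1
  have hindS : ∀ v, v ∈ S → ind (S : Set V) v = 1 := fun v hv => ind_mem (by simpa using hv)
  have hindS' : ∀ v, v ∉ S → ind (S : Set V) v = 0 := fun v hv => ind_notMem (by simpa using hv)
  have hX : G.RankGE (fun v => (N + 1) * chip c v + ind (S : Set V) v) 2 :=
    h.rank2.of_linEquiv hS.pump
  obtain ⟨f, hf⟩ := ((G.rankGE_zero_iff).1 ((G.rankGE_succ_iff).1
    ((G.rankGE_succ_iff).1 hX x) x)).script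
  -- values on `A` exceed the value at the exit by at most one
  have hM : ∀ b ∈ A, f b ≤ f w + 1 := by
    by_contra hcon
    push Not at hcon
    obtain ⟨b0, hb0, hb0f⟩ := hcon
    obtain ⟨t0, ht0A, ht0⟩ := Set.exists_max_image A f (Set.toFinite A) ⟨b0, hb0⟩
    let T : Set V := {t | t ∈ A ∧ ∀ b ∈ A, f b ≤ f t}
    have hTne : T.Nonempty := ⟨t0, ht0A, ht0⟩
    have hwT : w ∉ T := fun h => hwA h.1
    have hfT : ∀ t ∈ T, f w + 2 ≤ f t := by
      intro t ht
      have := ht.2 b0 hb0
      linarith
    obtain ⟨t, ht, ht2⟩ := h.two_le hTne hwT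
    have hterm : ∀ t ∈ T, ∀ u, G.mult t u * (1 - ind T u) ≤ G.mult t u * (f t - f u) := by
      intro t ht u
      by_cases huT : u ∈ T
      · rw [ind_mem huT]
        have h1 := ht.2 u huT.1
        have h2 := huT.2 t ht.1
        have h3 : f t = f u := le_antisymm h2 h1
        rw [h3]; simp
      · rw [ind_notMem huT]
        by_cases huA : u ∈ A
        · have h1 : f u < f t := by
            by_contra hc'
            apply huT
            refine ⟨huA, fun b hb => ?_⟩
            have := ht.2 b hb
            linarith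
          exact mul_le_mul_of_nonneg_left (by linarith) (G.mult_nonneg t u)
        · by_cases huw : u = w
          · subst huw
            have := hfT t ht
            exact mul_le_mul_of_nonneg_left (by linarith) (G.mult_nonneg t u)
          · rw [hout t ht.1 u huA huw]; simp
    have hlap : G.lap (ind T) t ≤ G.lap f t := by
      rw [lap_eq, lap_eq]
      refine Finset.sum_le_sum fun u _ => ?_
      rw [ind_mem ht]
      exact hterm t ht u
    have htx : t ≠ x := fun h => hxA (h ▸ ht.1)
    have h3 := hf t
    rw [chip_ne htx] at h3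
    have htc : t = c := by
      by_contra htc
      rw [chip_ne htc] at h3
      have := ind_le_one (S : Set V) t
      linarith
    subst htc
    rw [chip_self, hindS' t hS.hc] at h3
    have h4 : G.mult t w * (f t - f w) ≤ G.lap f t := by
      rw [lap_eq]
      refine Finset.single_le_sum (f := fun u => G.mult t u * (f t - f u)) (fun u _ => ?_)
        (Finset.mem_univ w)
      refine le_trans ?_ (hterm t ht u)
      exact mul_nonneg (G.mult_nonneg t u) (by have := ind_le_one T u; linarith)
    rw [hcw] at h4
    have h5 := hfT t ht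
    nlinarith
  classical
  let g : V → ℤ := fun v => if v ∈ A then f w + 1 else f v
  have hgA : ∀ v, v ∈ A → g v = f w + 1 := fun v hv => if_pos hv
  have hgA' : ∀ v, v ∉ A → g v = f v := fun v hv => if_neg hv
  refine G.equivEffective_of_script g fun v => ?_
  by_cases hvA : v ∈ A
  · have hvx : v ≠ x := fun h => hxA (h ▸ hvA)
    have hlap : G.lap g v = G.mult v w := by
      rw [lap_eq, Finset.sum_eq_single w]
      · rw [hgA v hvA, hgA' w hwA]; ring
      · intro b _ hb
        by_cases hbA : b ∈ A
        · rw [hgA v hvA, hgA b hbA]; ring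
        · rw [hout v hvA b hbA hb]; ring
      · intro h'; exact absurd (Finset.mem_univ _) h'
    rw [hlap, chip_ne hvx]
    by_cases hvc : v = c
    · subst hvc
      rw [chip_self, hcw, hindS' v hS.hc, chip_ne hx'c.symm]; linarith
    · rw [chip_ne hvc]
      by_cases hvx' : v = x'
      · subst hvx'
        rw [chip_self, hindS v hx', hx'w]; norm_num
      · rw [chip_ne hvx']
        by_cases hvS : v ∈ S
        · rw [hindS v hvS]
          have := haw v hvA hvc
          linarith
        · rw [hindS' v hvS, mult_comm, hS.att w hwS v hvS hvc]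
          norm_num
  · have hvx' : v ≠ x' := fun h => hvA (h ▸ hx'A)
    have h3 := hf v
    rw [chip_ne hvx']
    have hlap : G.lap g v ≤ G.lap f v := by
      by_cases hvw : v = w
      · subst hvw
        apply G.lap_mono (hgA' v hvA)
        intro u
        by_cases huA : u ∈ A
        · rw [hgA u huA]; exact hM u huA
        · rw [hgA' u huA]
      · apply le_of_eq
        rw [lap_eq, lap_eq]
        refine Finset.sum_congr rfl fun u _ => ?_
        by_cases huA : u ∈ A
        · rw [mult_comm, hout u huA v hvA hvw]; ring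
        · rw [hgA' u huA, hgA' v hvA]
    linarith

/-- One level of the chain. -/
lemma Ctx.level (h : G.QB v0) (hS : G.Ctx v0 c S N) (hne : S.Nonempty) :
    ∃ (L : Finset V) (u : V), L ⊆ S ∧ u ∈ L ∧ (∀ w ∈ L, G.mult c w = N + 1) ∧
      (∀ w ∈ L, ∀ w' ∈ L, w ≠ w' → G.mult w w' = 1) ∧
      (∀ x ∈ S \ L, ∀ y, y ∉ S \ L → y ≠ u → G.mult x y = 0) ∧
      G.Ctx v0 u (S \ L) (N + L.card) := by
  haveI : Nonempty V := ⟨c⟩
  have hN := hS.N1
  have hex : ∀ x, x ∈ S → _ := fun x hx => hS.exit h hx
  choose! A e hcA hxA hnS heS heA hce hae hout using hex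
  let L : Finset V := S.filter (fun w => G.mult c w ≠ 0)
  have hLS : L ⊆ S := Finset.filter_subset _ _
  have memL : ∀ w, w ∈ L ↔ w ∈ S ∧ G.mult c w ≠ 0 := fun w => by simp [L]
  have f1 : ∀ x, x ∈ S → e x ∈ L := fun x hx => by
    rw [memL]
    refine ⟨heS x hx, ?_⟩
    rw [hce x hx]
    omega
  have f2 : ∀ w, w ∈ L → e w = w := by
    intro w hw
    rw [memL] at hw
    by_contra hne'
    exact hw.2 (hout w hw.1 c (hcA w hw.1) w (hxA w hw.1) (fun h => hne' h.symm))
  have f3 : ∀ w ∈ L, G.mult c w = N + 1 := by
    intro w hw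
    have h1 := hce w (hLS hw)
    rw [f2 w hw] at h1
    exact h1
  have f4 : ∀ x, x ∈ S → ∀ w, w ∈ L → w ≠ e x → w ∈ A x := by
    intro x hx w hw hwe
    by_contra hcon
    exact ((memL w).1 hw).2 (hout x hx c (hcA x hx) w hcon hwe)
  have hcS := hS.hc
  have f5 : ∀ w ∈ L, ∀ w' ∈ L, w ≠ w' → G.mult w w' ≤ 1 := by
    intro w hw w' hw' hww'
    have h1 := f4 w' (hLS hw') w hw (by rw [f2 w' hw']; exact hww')
    have h2 := hae w' (hLS hw') w h1 (fun h => hcS (h ▸ hLS hw))
    rw [f2 w' hw'] at h2
    exact h2
  -- general separation statement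
  have hreach : ∀ x, x ∈ S → ∀ x', x' ∈ S → x' ∈ A x → G.mult x' (e x) = 0 →
      G.EquivEffective (fun v => (N + 1) * chip c v + ind (S : Set V) v - chip x v -
      chip x' v - chip x v) := by
    intro x hx x' hx' hx'A hm
    exact hS.reach2 h hx hx' (hcA x hx) (hxA x hx) (heS x hx) (heA x hx) (hce x hx) (hae x hx)
      (hout x hx) hx'A hm
  have hno : ∀ x, x ∈ S → ∀ x', x' ∈ S → x ≠ x' → x' ∈ A x → G.mult x' (e x) = 0 →
      x ∈ A x' → G.mult x (e x') = 0 → False := by
    intro x hx x' hx' hxx' h1 h2 h3 h4
    refine hS.no_two h hx hx' hxx' (hreach x hx x' hx' h1 h2) ?_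
    have h5 := hreach x' hx' x hx h3 h4
    exact h5.mono (fun v => by linarith)
  have f6 : ∀ w ∈ L, ∀ w' ∈ L, w ≠ w' → G.mult w w' = 1 := by
    intro w hw w' hw' hww'
    by_contra hcon
    have h0 : G.mult w w' = 0 := by
      have h1 := f5 w hw w' hw' hww'
      have h2 := G.mult_nonneg w w'
      omega
    refine hno w (hLS hw) w' (hLS hw') hww' (f4 w (hLS hw) w' hw' ?_) ?_
      (f4 w' (hLS hw') w hw ?_) ?_
    · rw [f2 w hw]; exact hww'.symm
    · rw [f2 w hw, mult_comm]; exact h0
    · rw [f2 w' hw']; exact hww'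
    · rw [f2 w' hw']; exact h0
  have f7 : ∀ x, x ∈ S → x ∉ L → ∀ x', x' ∈ S → x' ∉ L → e x = e x' := by
    intro x hx hxL x' hx' hx'L
    by_contra hne'
    have hw'A : e x' ∈ A x := f4 x hx (e x') (f1 x' hx') (fun h => hne' h.symm)
    have hwA' : e x ∈ A x' := f4 x' hx' (e x) (f1 x hx) hne'
    -- the far sides are disjoint
    have hdisj : ∀ t, t ∉ A x → t ≠ e x → t ∉ A x' → t ≠ e x' → False := by
      intro t ht1 ht2 ht3 ht4
      let R : Set V := {t | t ∉ A x ∧ t ≠ e x ∧ t ∉ A x' ∧ t ≠ e x'}
      obtain ⟨a, ha, b, hb, hab⟩ := h.conn.cut (S := R) ⟨t, ht1, ht2, ht3, ht4⟩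
        (y := c) (fun hc => hc.1 (hcA x hx))
      obtain ⟨ha1, ha2, ha3, ha4⟩ := ha
      have hm := G.adj_iff.1 hab
      have hb1 : b ∉ A x := fun hb' => hm (by
        rw [mult_comm]; exact hout x hx b hb' a ha1 ha2)
      have hb2 : b ≠ e x := by
        rintro rfl
        exact hm (by rw [mult_comm]; exact hout x' hx' _ hwA' a ha3 ha4)
      have hb3 : b ∉ A x' := fun hb' => hm (by
        rw [mult_comm]; exact hout x' hx' b hb' a ha3 ha4)
      have hb4 : b ≠ e x' := by
        rintro rfl
        exact hm (by rw [mult_comm]; exact hout x hx _ hw'A a ha1 ha2)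
      exact hb ⟨hb1, hb2, hb3, hb4⟩
    have hxe : x ≠ e x := fun h => hxL (h ▸ f1 x hx)
    have hxe' : x ≠ e x' := fun h => hxL (h ▸ f1 x' hx')
    have hx'e : x' ≠ e x := fun h => hx'L (h ▸ f1 x hx)
    have hx'e' : x' ≠ e x' := fun h => hx'L (h ▸ f1 x' hx')
    have hx'A : x' ∈ A x := by
      by_contra hcon
      exact hdisj x' hcon hx'e (hxA x' hx') hx'e'
    have hxA' : x ∈ A x' := by
      by_contra hcon
      exact hdisj x (hxA x hx) hxe hcon hxe'
    have hxx' : x ≠ x' := fun h => hne' (by rw [h])
    refine hno x hx x' hx' hxx' hx'A ?_ hxA' ?_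
    · rw [mult_comm]; exact hout x' hx' _ hwA' x' (hxA x' hx') hx'e'
    · rw [mult_comm]; exact hout x hx _ hw'A x (hxA x hx) hxe
  obtain ⟨u, huL, hu⟩ : ∃ u, u ∈ L ∧ ∀ x, x ∈ S → x ∉ L → e x = u := by
    by_cases hcase : ∃ x, x ∈ S ∧ x ∉ L
    · obtain ⟨x, hx, hxL⟩ := hcase
      exact ⟨e x, f1 x hx, fun x' hx' hx'L => f7 x' hx' hx'L x hx hxL⟩
    · obtain ⟨x, hx⟩ := hne
      refine ⟨e x, f1 x hx, fun x' hx' hx'L => absurd ⟨x', hx', hx'L⟩ hcase⟩
  have f8 : ∀ x ∈ S \ L, ∀ y, y ∉ S \ L → y ≠ u → G.mult x y = 0 := by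
    intro x hx y hy hyu
    rw [Finset.mem_sdiff] at hx hy
    by_cases hyS : y ∈ S
    · have hyL : y ∈ L := by
        by_contra hcon
        exact hy ⟨hyS, hcon⟩
      have hyA : y ∈ A x := f4 x hx.1 y hyL (by rw [hu x hx.1 hx.2]; exact hyu)
      rw [mult_comm]
      refine hout x hx.1 y hyA x (hxA x hx.1) ?_
      intro h'
      exact hx.2 (h' ▸ f1 x hx.1)
    · by_cases hyc : y = c
      · subst hyc
        by_contra hcon
        apply hx.2
        rw [memL, mult_comm]
        exact ⟨hx.1, hcon⟩
      · exact hS.att x hx.1 y hyS hyc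
  refine ⟨L, u, hLS, huL, f3, f6, f8, ?_⟩
  have huS : u ∈ S := hLS huL
  have huc : u ≠ c := fun h => hcS (h ▸ huS)
  have hcard : (L.card : ℤ) + (S \ L).card = S.card := by
    rw [Finset.card_sdiff_of_subset hLS]
    have := Finset.card_le_card hLS
    omega
  refine ⟨?_, f8, ?_, ?_, ?_⟩
  · intro h'
    rw [Finset.mem_sdiff] at h'
    exact h'.2 huL
  · have := hS.card
    linarith
  · have : (0 : ℤ) ≤ L.card := by positivity
    linarith
  · refine hS.pump.trans ?_
    let P : Set V := {v | v ∉ S \ L ∧ v ≠ u}
    have huP : u ∉ P := fun h => h.2 rfl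
    have hindS : ∀ v, v ∈ S → ind (S : Set V) v = 1 := fun v hv => ind_mem (by simpa using hv)
    have hindS' : ∀ v, v ∉ S → ind (S : Set V) v = 0 := fun v hv => ind_notMem (by simpa using hv)
    have hindT : ∀ v, v ∈ S \ L → ind ((S \ L : Finset V) : Set V) v = 1 :=
      fun v hv => ind_mem (Finset.mem_coe.2 hv)
    have hindT' : ∀ v, v ∉ S \ L → ind ((S \ L : Finset V) : Set V) v = 0 :=
      fun v hv => ind_notMem (fun h => hv (Finset.mem_coe.1 h))
    have hoff : ∀ v, v ≠ u → (N + L.card + 1) * chip u v + ind ((S \ L : Finset V) : Set V) v =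
        (N + 1) * chip c v + ind (S : Set V) v - G.lap (ind P) v := by
      intro v hvu
      rw [chip_ne hvu]
      by_cases hvT : v ∈ S \ L
      · have hvT' := Finset.mem_sdiff.1 hvT
        have hvc : v ≠ c := fun h => hcS (h ▸ hvT'.1)
        have hvP : v ∉ P := fun h => h.1 hvT
        have hlap : G.lap (ind P) v = 0 := by
          rw [lap_eq]
          apply Finset.sum_eq_zero
          intro w _
          by_cases hw : w ∈ P
          · rw [f8 v hvT w hw.1 hw.2]; ring
          · rw [ind_notMem hw, ind_notMem hvP]; ring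
        rw [hlap, hindT v hvT, hindS v hvT'.1, chip_ne hvc]; ring
      · have hvP : v ∈ P := ⟨hvT, hvu⟩
        have hlap : G.lap (ind P) v = G.mult v u := by
          apply G.lap_ind_single hvP huP
          intro y hy hyu
          have hyT : y ∈ S \ L := by
            by_contra hcon
            exact hy ⟨hcon, hyu⟩
          rw [mult_comm]
          exact f8 y hyT v hvT hvu
        rw [hlap, hindT' v hvT]
        by_cases hvc : v = c
        · subst hvc
          rw [chip_self, hindS' v hcS, f3 u huL]; ring
        · rw [chip_ne hvc]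
          by_cases hvS : v ∈ S
          · have hvL : v ∈ L := by
              by_contra hcon
              exact hvT (Finset.mem_sdiff.2 ⟨hvS, hcon⟩)
            rw [hindS v hvS, f6 v hvL u huL hvu]; ring
          · rw [hindS' v hvS, mult_comm, hS.att u huS v hvS hvc]; ring
    refine ⟨ind P, fun v => ?_⟩
    by_cases hvu : v = u
    · subst hvu
      -- compare degrees
      have h1 : deg (fun w => ((N + L.card + 1) * chip v w + ind ((S \ L : Finset V) : Set V) w) -
          (((N + 1) * chip c w + ind (S : Set V) w) - G.lap (ind P) w)) = 0 := by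
        rw [deg_sub, deg_add, deg_sub, deg_add, deg_mul_chip, deg_mul_chip, deg_ind, deg_ind]
        have h2 : deg (fun w => G.lap (ind P) w) = 0 := G.sum_lap (ind P)
        rw [h2]
        linarith
      unfold deg at h1
      rw [Finset.sum_eq_single v] at h1
      · simp only
        linarith
      · intro b _ hb
        have := hoff b hb
        linarith
      · intro h'; exact absurd (Finset.mem_univ _) h'
    · exact hoff v hvu

/-- **Classification**: a quasi-banana graph is a chain. -/
theorem Ctx.chain (h : G.QB v0) : ∀ (n : ℕ) (S : Finset V), S.card = n → ∀ (c : V) (N : ℤ),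
    G.Ctx v0 c S N → G.Chain c S N := by
  intro n
  induction n using Nat.strong_induction_on with
  | _ n ih =>
    intro S hn c N hS
    rcases S.eq_empty_or_nonempty with h0 | h0
    · subst h0
      exact Chain.nil c N
    · obtain ⟨L, u, hLS, huL, h1, h2, h3, h4⟩ := hS.level h h0
      refine Chain.cons c S N L u hLS huL h1 h2 h3 (ih (S \ L).card ?_ (S \ L) rfl u _ h4)
      rw [← hn]
      apply Finset.card_lt_card
      refine Finset.sdiff_ssubset hLS ⟨u, huL⟩

end MultiGraph

end Pool.Agent.MPf3e214
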