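import Mathlib

set_option autoImplicit false

namespace Pool.Agent.MPf3e214

/-- A loopless multigraph with vertex type `V` and edge type `E`. Every edge `e` joins the two
distinct vertices `src e` and `tgt e`; the order of the two ends plays no role. -/
structure MultiGraph (V E : Type*) where
  src : E → V
  tgt : E → V
  loopless : ∀ e, src e ≠ tgt e

namespace MultiGraph

variable {V E : Type*} (G : MultiGraph V E)

/-- Two vertices are adjacent when some edge joins them. -/
def Adj (x y : V) : Prop :=
  ∃ e, (G.src e = x ∧ G.tgt e = y) ∨ (G.src e = y ∧ G.tgt e = x)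

/-- The graph is nonempty and any two vertices are joined by a walk. -/
def Connected : Prop := Nonempty V ∧ ∀ x y, Relation.ReflTransGen G.Adj x y

variable [Fintype V] [Fintype E] [DecidableEq V]

/-- The graph Laplacian: `lap f v` is the sum of `f v - f u` over all edges at `v`, where `u` is
the other end of the edge. So `D - lap f` is what one gets from the divisor `D` by firing each
vertex `v` exactly `f v` times. -/
def lap (f : V → ℤ) (v : V) : ℤ :=
  ∑ e, ((if G.src e = v then f v - f (G.tgt e) else 0) +
    (if G.tgt e = v then f v - f (G.src e) else 0))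

/-- The degree of a divisor. -/
def deg (D : V → ℤ) : ℤ := ∑ v, D v

/-- Linear equivalence of divisors. -/
def LinEquiv (D D' : V → ℤ) : Prop := ∃ f : V → ℤ, ∀ v, D' v = D v - G.lap f v

/-- `D` is linearly equivalent to an effective divisor. -/
def EquivEffective (D : V → ℤ) : Prop := ∃ D' : V → ℤ, G.LinEquiv D D' ∧ ∀ v, 0 ≤ D' v

/-- `D - F` is equivalent to an effective divisor for every effective `F` of degree `r`. -/
def RankGE (D : V → ℤ) (r : ℕ) : Prop :=
  ∀ F : V → ℤ, (∀ v, 0 ≤ F v) → deg F = r → G.EquivEffective (fun v => D v - F v)

/-- The (Baker-Norine) rank of `D` is the natural number `r`: `r` is the largest natural number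
such that `D - F` is equivalent to an effective divisor for every effective `F` of degree `r`. -/
def HasRank (D : V → ℤ) (r : ℕ) : Prop := IsGreatest {s : ℕ | G.RankGE D s} r

/-- `d` is the `r`-th gonality: the least degree of a divisor of rank `r`. -/
def IsGonality (r : ℕ) (d : ℤ) : Prop :=
  IsLeast {d' : ℤ | ∃ D : V → ℤ, G.HasRank D r ∧ deg D = d'} d

/-- `D` realises the `r`-th gonality. -/
def Realises (r : ℕ) (D : V → ℤ) : Prop := G.HasRank D r ∧ G.IsGonality r (deg D)

/-- The second gonality is the first gonality plus one. -/
def GonalityTight : Prop := ∃ d : ℤ, G.IsGonality 1 d ∧ G.IsGonality 2 (d + 1)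

/-- Quasi-banana graphs: gonality-tight, and for some vertex `v` the divisor with two chips at `v`
and one chip at each other vertex realises the second gonality. -/
def QuasiBanana : Prop :=
  G.GonalityTight ∧ ∃ v : V, G.Realises 2 (fun w => if w = v then 2 else 1)

/-- The graph obtained by replacing each edge by a path with `m` new internal vertices. The vertex
`Sum.inr (e, i)` is the `i`-th internal vertex on the edge `e` and the edges
`(e, 0), ..., (e, m)` are the consecutive edges of the path that replaces `e`. -/
def subdivide {V E : Type*} (G : MultiGraph V E) (m : ℕ) :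
    MultiGraph (V ⊕ E × Fin m) (E × Fin (m + 1)) where
  src x := Fin.cases (Sum.inl (G.src x.1)) (fun i => Sum.inr (x.1, i)) x.2
  tgt x := Fin.lastCases (Sum.inl (G.tgt x.1)) (fun i => Sum.inr (x.1, i)) x.2
  loopless := by
    rintro ⟨e, j⟩ h
    dsimp only at h
    induction j using Fin.cases with
    | zero =>
      rw [Fin.cases_zero] at h
      rcases Nat.eq_zero_or_pos m with hm | hm
      · subst hm
        have h0 : (0 : Fin 1) = Fin.last 0 := rfl
        rw [h0, Fin.lastCases_last] at h
        exact G.loopless e (Sum.inl_injective h)
      · obtain ⟨n, rfl⟩ : ∃ n, m = n + 1 := ⟨m - 1, by omega⟩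
        have h0 : (0 : Fin (n + 1 + 1)) = Fin.castSucc (0 : Fin (n + 1)) := rfl
        rw [h0, Fin.lastCases_castSucc] at h
        cases h
    | succ i =>
      rw [Fin.cases_succ] at h
      by_cases hi : i.succ = Fin.last m
      · rw [hi, Fin.lastCases_last] at h
        cases h
      · obtain ⟨j, hj⟩ := Fin.exists_castSucc_eq.2 hi
        rw [← hj, Fin.lastCases_castSucc] at h
        have h2 := Sum.inr_injective h
        have h3 : i = j := (Prod.mk.inj h2).2
        have h4 : (j : ℕ) = (i : ℕ) + 1 := by
          have := congrArg Fin.val hj
          simpa using this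
        rw [h3] at h4
        omega

/-- A divisor on `G` regarded as a divisor on the subdivision. -/
def extend {V E : Type*} (m : ℕ) (D : V → ℤ) : V ⊕ E × Fin m → ℤ :=
  Sum.elim D (fun _ => 0)

end MultiGraph

end Pool.Agent.MPf3e214
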