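import Pool.Agent.MPf3e214.Subdiv

set_option autoImplicit false
set_option linter.unusedSectionVars false
set_option linter.style.haveILetI false

namespace Pool.Agent.MPf3e214

namespace MultiGraph

section Green

variable {V E : Type*} (G : MultiGraph V E) [Fintype V] [Fintype E] [DecidableEq V]

/-- Green's identity -/
lemma green (g f : V → ℤ) : ∑ v, g v * G.lap f v =
    ∑ e, (g (G.src e) - g (G.tgt e)) * (f (G.src e) - f (G.tgt e)) := by
  unfold lap
  simp_rw [Finset.mul_sum]
  rw [Finset.sum_comm]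
  refine Finset.sum_congr rfl fun e _ => ?_
  simp_rw [mul_add]
  rw [Finset.sum_add_distrib]
  have h1 : ∑ x, g x * (if G.src e = x then f x - f (G.tgt e) else 0) =
      g (G.src e) * (f (G.src e) - f (G.tgt e)) := by
    rw [Finset.sum_eq_single (G.src e)]
    · rw [if_pos rfl]
    · intro b _ hb
      rw [if_neg (fun h => hb h.symm)]; ring
    · intro h; exact absurd (Finset.mem_univ _) h
  have h2 : ∑ x, g x * (if G.tgt e = x then f x - f (G.src e) else 0) =
      g (G.tgt e) * (f (G.tgt e) - f (G.src e)) := by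
    rw [Finset.sum_eq_single (G.tgt e)]
    · rw [if_pos rfl]
    · intro b _ hb
      rw [if_neg (fun h => hb h.symm)]; ring
    · intro h; exact absurd (Finset.mem_univ _) h
  rw [h1, h2]
  ring

/-- double counting of edges between two weighted vertex classes -/
lemma sum_mult (h k : V → ℤ) : ∑ x, ∑ y, h x * k y * G.mult x y =
    ∑ e, (h (G.src e) * k (G.tgt e) + h (G.tgt e) * k (G.src e)) := by
  have h1 : ∀ x y, h x * k y * G.mult x y = ∑ e, (h x * k y * (if G.src e = x ∧ G.tgt e = y then
      1 else 0) + h x * k y * (if G.src e = y ∧ G.tgt e = x then 1 else 0)) := by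
    intro x y
    unfold mult
    rw [Finset.mul_sum]
    refine Finset.sum_congr rfl fun e _ => ?_
    ring
  simp_rw [h1]
  have h2 : ∀ x, ∑ y, ∑ e, (h x * k y * (if G.src e = x ∧ G.tgt e = y then
      1 else 0) + h x * k y * (if G.src e = y ∧ G.tgt e = x then 1 else 0)) =
      ∑ e, ∑ y, (h x * k y * (if G.src e = x ∧ G.tgt e = y then
      1 else 0) + h x * k y * (if G.src e = y ∧ G.tgt e = x then 1 else 0)) :=
    fun x => Finset.sum_comm
  simp_rw [h2]
  rw [Finset.sum_comm]
  refine Finset.sum_congr rfl fun e _ => ?_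
  simp_rw [Finset.sum_add_distrib]
  congr 1
  · rw [Finset.sum_eq_single (G.src e)]
    · rw [Finset.sum_eq_single (G.tgt e)]
      · rw [if_pos ⟨rfl, rfl⟩]; ring
      · intro b _ hb
        rw [if_neg (fun h => hb h.2.symm)]; ring
      · intro h; exact absurd (Finset.mem_univ _) h
    · intro b _ hb
      apply Finset.sum_eq_zero
      intro y _
      rw [if_neg (fun h => hb h.1.symm)]; ring
    · intro h; exact absurd (Finset.mem_univ _) h
  · rw [Finset.sum_eq_single (G.tgt e)]
    · rw [Finset.sum_eq_single (G.src e)]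
      · rw [if_pos ⟨rfl, rfl⟩]; ring
      · intro b _ hb
        rw [if_neg (fun h => hb h.1.symm)]; ring
      · intro h; exact absurd (Finset.mem_univ _) h
    · intro b _ hb
      apply Finset.sum_eq_zero
      intro y _
      rw [if_neg (fun h => hb h.2.symm)]; ring
    · intro h; exact absurd (Finset.mem_univ _) h

end Green

/-- telescoping for 0/1 sequences -/
lemma sq_telescope (φ : ℕ → ℤ) (hφ : ∀ j, φ j = 0 ∨ φ j = 1) (n : ℕ) :
    (φ 0 - φ n) * (φ 0 - φ n) ≤ ∑ j ∈ Finset.range n, (φ j - φ (j + 1)) * (φ j - φ (j + 1)) := by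
  induction n with
  | zero => simp
  | succ n ih =>
    rw [Finset.sum_range_succ]
    rcases hφ 0 with h0 | h0 <;> rcases hφ n with h1 | h1 <;> rcases hφ (n + 1) with h2 | h2 <;>
      rw [h0, h1] at ih <;> rw [h0, h1, h2] <;> linarith

section Lower

variable {V E : Type*} {G : MultiGraph V E} [Fintype V] [Fintype E] [DecidableEq V]
  [DecidableEq E] {m : ℕ}

/-- The main step of the lower bound: a block of the chain. -/
lemma block_count {c : V} {S L : Finset V} {N : ℤ} (hcS : c ∉ S) (hLS : L ⊆ S)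
    (h1 : ∀ w ∈ L, G.mult c w = N + 1)
    (h2 : ∀ w ∈ L, ∀ w' ∈ L, w ≠ w' → G.mult w w' = 1)
    (hN : 1 ≤ N) {E' : V ⊕ E × Fin m → ℤ} (hE' : ∀ q, 0 ≤ E' q)
    (hchips : ∀ x ∈ S \ L, 1 ≤ E' (Sum.inl x)) {U : Set (V ⊕ E × Fin m)}
    (hU : (G.subdivide m).Legal E' U) (hcU : Sum.inl c ∈ U) {p : V} (hp : p ∈ L)
    (hpU : Sum.inl p ∉ U) : N + S.card ≤ deg E' := by
  classical
  have hcL : c ∉ L := fun h => hcS (hLS h)
  -- the block
  let B : Set V := {v | v = c ∨ v ∈ L}
  let W : Set (V ⊕ E × Fin m) := {q | q ∈ U ∧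
    (match q with
      | Sum.inl x => x ∈ B
      | Sum.inr (e, _) => G.src e ∈ B ∧ G.tgt e ∈ B)}
  have hWU : W ⊆ U := fun q hq => hq.1
  have hWpos : ∀ e, G.src e ∈ B → G.tgt e ∈ B → ∀ j, j ≤ m + 1 →
      (G.pos m e j ∈ W ↔ G.pos m e j ∈ U) := by
    intro e he1 he2 j hj
    refine ⟨fun h => h.1, fun h => ⟨h, ?_⟩⟩
    by_cases h0 : j = 0
    · subst h0; rw [pos_zero]; exact he1
    by_cases hm : j = m + 1
    · subst hm; rw [pos_last]; exact he2
    · rw [G.pos_int m e (by omega) (by omega)]; exact ⟨he1, he2⟩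
  -- chips on the block
  let T : Finset V := S \ L
  have hsplit : ∑ q, (ind W q * E' q) + T.card ≤ deg E' := by
    have h3 : (T.card : ℤ) ≤ ∑ q, ind (Sum.inl '' (T : Set V)) q * E' q := by
      rw [Fintype.sum_sum_type]
      have h4 : 0 ≤ ∑ a₂ : E × Fin m, ind (Sum.inl '' (T : Set V)) (Sum.inr a₂) *
          E' (Sum.inr a₂) := Finset.sum_nonneg fun a _ => mul_nonneg (ind_nonneg _ _) (hE' _)
      have h5 : (T.card : ℤ) = ∑ x, ind (T : Set V) x := by
        have := deg_ind T
        unfold deg at this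
        exact this.symm
      rw [h5]
      have h6 : ∑ x, ind (T : Set V) x ≤
          ∑ a₁ : V, ind (Sum.inl '' (T : Set V) : Set (V ⊕ E × Fin m)) (Sum.inl a₁) *
            E' (Sum.inl a₁) := by
        refine Finset.sum_le_sum fun x _ => ?_
        by_cases hx : x ∈ T
        · rw [ind_mem (Finset.mem_coe.2 hx),
            ind_mem (Set.mem_image_of_mem _ (Finset.mem_coe.2 hx)), one_mul]
          exact hchips x hx
        · rw [ind_notMem (fun h => hx (Finset.mem_coe.1 h))]
          exact mul_nonneg (ind_nonneg _ _) (hE' _)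
      linarith
    have h4 : ∑ q, (ind W q * E' q) + ∑ q, ind (Sum.inl '' (T : Set V)) q * E' q ≤ deg E' := by
      unfold deg
      rw [← Finset.sum_add_distrib]
      refine Finset.sum_le_sum fun q _ => ?_
      have h5 : ind W q + ind (Sum.inl '' (T : Set V)) q ≤ 1 := by
        by_cases hq : q ∈ W
        · by_cases hq' : q ∈ (Sum.inl '' (T : Set V) : Set (V ⊕ E × Fin m))
          · exfalso
            obtain ⟨x, hx, rfl⟩ := hq'
            have hx' : x ∈ S \ L := Finset.mem_coe.1 hx
            rw [Finset.mem_sdiff] at hx'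
            rcases hq.2 with h6 | h6
            · exact hcS (h6 ▸ hx'.1)
            · exact hx'.2 h6
          · rw [ind_mem hq, ind_notMem hq']; norm_num
        · rw [ind_notMem hq]
          have := ind_le_one (Sum.inl '' (T : Set V)) q
          linarith
      have h6 := hE' q
      nlinarith
    linarith
  have hleg : ∑ q, (ind W q * (G.subdivide m).lap (ind U) q) ≤ ∑ q, (ind W q * E' q) := by
    refine Finset.sum_le_sum fun q _ => ?_
    by_cases hq : q ∈ W
    · rw [ind_mem hq, one_mul, one_mul]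
      exact hU q hq.1
    · rw [ind_notMem hq]; simp
  -- count crossing edges
  have h01 : ∀ q, ind U q = 0 ∨ ind U q = 1 := by
    intro q
    by_cases hq : q ∈ U
    · right; exact ind_mem hq
    · left; exact ind_notMem hq
  have hcross : ∑ e, (if G.src e ∈ B ∧ G.tgt e ∈ B then
      (ind U (Sum.inl (G.src e)) - ind U (Sum.inl (G.tgt e))) *
      (ind U (Sum.inl (G.src e)) - ind U (Sum.inl (G.tgt e))) else 0) ≤
      ∑ q, (ind W q * (G.subdivide m).lap (ind U) q) := by
    rw [green, Fintype.sum_prod_type]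
    refine Finset.sum_le_sum fun e _ => ?_
    have hrw : ∑ y : Fin (m + 1), (ind W ((G.subdivide m).src (e, y)) -
        ind W ((G.subdivide m).tgt (e, y))) * (ind U ((G.subdivide m).src (e, y)) -
        ind U ((G.subdivide m).tgt (e, y))) =
        ∑ j ∈ Finset.range (m + 1), (ind W (G.pos m e j) -
        ind W (G.pos m e (j + 1))) * (ind U (G.pos m e j) -
        ind U (G.pos m e (j + 1))) := by
      rw [Finset.sum_range]
      refine Finset.sum_congr rfl fun j _ => ?_
      rw [sub_src, sub_tgt]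
    rw [hrw]
    by_cases he : G.src e ∈ B ∧ G.tgt e ∈ B
    · rw [if_pos he]
      have h3 := sq_telescope (fun j => ind U (G.pos m e j)) (fun j => h01 _) (m + 1)
      simp only [pos_zero, pos_last] at h3
      refine le_trans h3 (le_of_eq ?_)
      refine Finset.sum_congr rfl fun j hj => ?_
      rw [Finset.mem_range] at hj
      have h4 : ∀ j, j ≤ m + 1 → ind W (G.pos m e j) = ind U (G.pos m e j) := by
        intro j hj
        have h5 := hWpos e he.1 he.2 j hj
        by_cases h6 : G.pos m e j ∈ U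
        · rw [ind_mem h6, ind_mem (h5.2 h6)]
        · rw [ind_notMem h6, ind_notMem (fun h => h6 (h5.1 h))]
      rw [h4 j (by omega), h4 (j + 1) (by omega)]
    · rw [if_neg he]
      apply Finset.sum_nonneg
      intro j _
      have key : ∀ q q', 0 ≤ (ind W q - ind W q') * (ind U q - ind U q') := by
        intro q q'
        have hWle : ∀ q, ind W q ≤ ind U q := by
          intro q
          by_cases hq : q ∈ W
          · rw [ind_mem hq, ind_mem (hWU hq)]
          · rw [ind_notMem hq]; exact ind_nonneg _ _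
        have a1 := hWle q
        have a2 := hWle q'
        have a3 := ind_nonneg W q
        have a4 := ind_nonneg W q'
        rcases h01 q with hq | hq <;> rcases h01 q' with hq' | hq' <;>
          rw [hq] at a1 ⊢ <;> rw [hq'] at a2 ⊢ <;> nlinarith
      exact key _ _
  -- count edges between the two parts of the block
  let W1 : Finset V := L.filter (fun w => (Sum.inl w : V ⊕ E × Fin m) ∉ U)
  let W0 : Finset V := L.filter (fun w => (Sum.inl w : V ⊕ E × Fin m) ∈ U)
  have mW1 : ∀ w, w ∈ W1 ↔ w ∈ L ∧ (Sum.inl w : V ⊕ E × Fin m) ∉ U := fun w => by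
    simp [W1]
  have mW0 : ∀ w, w ∈ W0 ↔ w ∈ L ∧ (Sum.inl w : V ⊕ E × Fin m) ∈ U := fun w => by
    simp [W0]
  have hcard : W1.card + W0.card = L.card := by
    have h3 := Finset.card_filter_add_card_filter_not (s := L)
      (fun w => (Sum.inl w : V ⊕ E × Fin m) ∉ U)
    have h4 : L.filter (fun w => ¬ (Sum.inl w : V ⊕ E × Fin m) ∉ U) = W0 := by
      ext w
      simp [W0]
    rw [h4] at h3
    exact h3
  have hedges : ∑ x, ∑ y, ind (W1 : Set V) x * (chip c y + ind (W0 : Set V) y) * G.mult x y ≤
      ∑ e, (if G.src e ∈ B ∧ G.tgt e ∈ B then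
      (ind U (Sum.inl (G.src e)) - ind U (Sum.inl (G.tgt e))) *
      (ind U (Sum.inl (G.src e)) - ind U (Sum.inl (G.tgt e))) else 0) := by
    rw [sum_mult]
    refine Finset.sum_le_sum fun e _ => ?_
    -- values of the weights
    have hv : ∀ v, (ind (W1 : Set V) v = 0 ∨ (ind (W1 : Set V) v = 1 ∧ v ∈ B ∧
        ind U (Sum.inl v) = 0 ∧ chip c v + ind (W0 : Set V) v = 0)) ∧
        (chip c v + ind (W0 : Set V) v = 0 ∨ (chip c v + ind (W0 : Set V) v = 1 ∧ v ∈ B ∧
        ind U (Sum.inl v) = 1)) := by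
      intro v
      by_cases hvc : v = c
      · subst hvc
        have b1 : v ∉ W1 := fun h => hcL ((mW1 v).1 h).1
        have b0 : v ∉ W0 := fun h => hcL ((mW0 v).1 h).1
        refine ⟨Or.inl (ind_notMem (fun h => b1 (Finset.mem_coe.1 h))), Or.inr ⟨?_, Or.inl rfl,
          ind_mem hcU⟩⟩
        rw [chip_self, ind_notMem (fun h => b0 (Finset.mem_coe.1 h))]; norm_num
      · rw [chip_ne hvc, zero_add]
        by_cases hvL : v ∈ L
        · by_cases hvU : (Sum.inl v : V ⊕ E × Fin m) ∈ U
          · have b1 : v ∉ W1 := fun h => ((mW1 v).1 h).2 hvU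
            have b0 : v ∈ W0 := (mW0 v).2 ⟨hvL, hvU⟩
            exact ⟨Or.inl (ind_notMem (fun h => b1 (Finset.mem_coe.1 h))),
              Or.inr ⟨ind_mem (Finset.mem_coe.2 b0), Or.inr hvL, ind_mem hvU⟩⟩
          · have b1 : v ∈ W1 := (mW1 v).2 ⟨hvL, hvU⟩
            have b0 : v ∉ W0 := fun h => hvU ((mW0 v).1 h).2
            have b0' : ind (W0 : Set V) v = 0 := ind_notMem (fun h => b0 (Finset.mem_coe.1 h))
            exact ⟨Or.inr ⟨ind_mem (Finset.mem_coe.2 b1), Or.inr hvL, ind_notMem hvU, b0'⟩,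
              Or.inl b0'⟩
        · have b1 : v ∉ W1 := fun h => hvL ((mW1 v).1 h).1
          have b0 : v ∉ W0 := fun h => hvL ((mW0 v).1 h).1
          exact ⟨Or.inl (ind_notMem (fun h => b1 (Finset.mem_coe.1 h))),
            Or.inl (ind_notMem (fun h => b0 (Finset.mem_coe.1 h)))⟩
    have hs := hv (G.src e)
    have ht := hv (G.tgt e)
    have hrhs : 0 ≤ (if G.src e ∈ B ∧ G.tgt e ∈ B then
      (ind U (Sum.inl (G.src e)) - ind U (Sum.inl (G.tgt e))) *
      (ind U (Sum.inl (G.src e)) - ind U (Sum.inl (G.tgt e))) else 0) := by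
      split_ifs
      · exact mul_self_nonneg _
      · exact le_rfl
    rcases hs.1 with s1 | ⟨s1, s2, s3, s4⟩
    · rw [s1, zero_mul, zero_add]
      rcases ht.1 with t1 | ⟨t1, t2, t3, t4⟩
      · rw [t1, zero_mul]; exact hrhs
      · rw [t1, one_mul]
        rcases hs.2 with r1 | ⟨r1, r2, r3⟩
        · rw [r1]; exact hrhs
        · rw [r1, if_pos ⟨r2, t2⟩, r3, t3]; norm_num
    · rw [s4, mul_zero, add_zero, s1, one_mul]
      rcases ht.2 with r1 | ⟨r1, r2, r3⟩
      · rw [r1]; exact hrhs
      · rw [r1, if_pos ⟨s2, r2⟩, s3, r3]; norm_num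
  have hvalue : ∑ x, ∑ y, ind (W1 : Set V) x * (chip c y + ind (W0 : Set V) y) * G.mult x y =
      W1.card * (N + 1 + W0.card) := by
    have h3 : ∀ x, ∑ y, ind (W1 : Set V) x * (chip c y + ind (W0 : Set V) y) * G.mult x y =
        ind (W1 : Set V) x * (N + 1 + W0.card) := by
      intro x
      by_cases hx : x ∈ W1
      · rw [ind_mem (Finset.mem_coe.2 hx), one_mul]
        have hx' := (mW1 x).1 hx
        have h4 : ∀ y, 1 * (chip c y + ind (W0 : Set V) y) * G.mult x y =
            chip c y * (N + 1) + ind (W0 : Set V) y := by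
          intro y
          by_cases hyc : y = c
          · subst hyc
            have b0 : y ∉ W0 := fun h => hcL ((mW0 y).1 h).1
            rw [chip_self, ind_notMem (fun h => b0 (Finset.mem_coe.1 h)), mult_comm,
              h1 x hx'.1]
            ring
          · rw [chip_ne hyc]
            by_cases hy : y ∈ W0
            · have hy' := (mW0 y).1 hy
              rw [ind_mem (Finset.mem_coe.2 hy), h2 x hx'.1 y hy'.1 (by
                rintro rfl
                exact hx'.2 hy'.2)]
              ring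
            · rw [ind_notMem (fun h => hy (Finset.mem_coe.1 h))]; ring
        simp_rw [h4]
        rw [Finset.sum_add_distrib, ← Finset.sum_mul]
        have h5 := deg_chip c
        have h6 := deg_ind W0
        unfold deg at h5 h6
        rw [h5, h6]
        ring
      · rw [ind_notMem (fun h => hx (Finset.mem_coe.1 h))]
        simp
    simp_rw [h3]
    rw [← Finset.sum_mul]
    have h6 := deg_ind W1
    unfold deg at h6
    rw [h6]
  have hb : 1 ≤ W1.card := Finset.card_pos.2 ⟨p, (mW1 p).2 ⟨hp, hpU⟩⟩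
  have hTcard : (T.card : ℤ) = S.card - L.card := by
    have h3 : T.card = S.card - L.card := Finset.card_sdiff_of_subset hLS
    have h4 := Finset.card_le_card hLS
    rw [h3]
    omega
  have hcard' : (W1.card : ℤ) + W0.card = L.card := by exact_mod_cast hcard
  have hb' : (1 : ℤ) ≤ W1.card := by exact_mod_cast hb
  have hw0 : (0 : ℤ) ≤ W0.card := by positivity
  have hfinal : N + L.card ≤ W1.card * (N + 1 + W0.card) := by
    rw [← hcard']
    nlinarith [mul_nonneg (by linarith : (0 : ℤ) ≤ (W1.card : ℤ) - 1)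
      (by linarith : (0 : ℤ) ≤ N + W0.card)]
  linarith

/-- Lower bound along the chain, for a divisor reduced at the root. -/
lemma Chain.lower (hG : G.Connected) {v0 : V} {E0 : V ⊕ E × Fin m → ℤ} (hE0 : ∀ q, 0 ≤ E0 q)
    (hred : ∀ U : Set (V ⊕ E × Fin m), U.Nonempty → Sum.inl v0 ∉ U →
      ¬ (G.subdivide m).Legal E0 U)
    (hreach : ∀ q, (G.subdivide m).EquivEffective (fun q' => E0 q' - chip q q'))
    {c : V} {S : Finset V} {N : ℤ} (hch : G.Chain c S N) : v0 ∉ S → c ∉ S → 1 ≤ N →
    (∀ x ∈ S, ∀ y, y ∉ S → y ≠ c → G.mult x y = 0) →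
    (N + S.card ≤ deg E0 ∨ ∀ x ∈ S, 1 ≤ E0 (Sum.inl x)) := by
  induction hch with
  | nil c N =>
    intro _ _ _ _
    right
    intro x hx
    simp at hx
  | cons c S N L u hL hu h1 h2 h3 h4 ih =>
    intro hv0 hcS hN hatt
    have hcardS : (L.card : ℤ) + (S \ L).card = S.card := by
      rw [Finset.card_sdiff_of_subset hL]
      have := Finset.card_le_card hL
      omega
    have ih' := ih (fun h => hv0 (Finset.mem_sdiff.1 h).1) (fun h => (Finset.mem_sdiff.1 h).2 hu)
      (by have : (0 : ℤ) ≤ L.card := by positivity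
          linarith) h3
    rcases ih' with ih' | ih'
    · left; linarith
    by_cases hall : ∀ x ∈ L, 1 ≤ E0 (Sum.inl x)
    · right
      intro x hx
      by_cases hxL : x ∈ L
      · exact hall x hxL
      · exact ih' x (Finset.mem_sdiff.2 ⟨hx, hxL⟩)
    left
    push Not at hall
    obtain ⟨p, hp, hpE⟩ := hall
    have hpE0 : E0 (Sum.inl p) = 0 := by
      have := hE0 (Sum.inl p)
      omega
    -- the part of the subdivision on the side of `S`, together with `c`
    let BS : E → Prop := fun e => (G.src e = c ∨ G.src e ∈ S) ∧ (G.tgt e = c ∨ G.tgt e ∈ S)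
    let Z : Set (V ⊕ E × Fin m) := {q | match q with
      | Sum.inl x => x = c ∨ x ∈ S
      | Sum.inr (e, _) => BS e}
    have hposZ : ∀ e, BS e → ∀ j, j ≤ m + 1 → G.pos m e j ∈ Z := by
      intro e he j hj
      by_cases h0 : j = 0
      · subst h0; rw [pos_zero]; exact he.1
      by_cases hm : j = m + 1
      · subst hm; rw [pos_last]; exact he.2
      · rw [G.pos_int m e (by omega) (by omega)]; exact he
    have hZpos : ∀ e j, j ≤ m + 1 → G.pos m e j ∈ Z → G.pos m e j ≠ Sum.inl c → BS e := by
      intro e j hj hZ hne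
      by_cases h0 : j = 0
      · subst h0
        rw [pos_zero] at hZ hne
        have hs : G.src e ∈ S := by
          rcases hZ with h | h
          · exact absurd (by rw [h]) hne
          · exact h
        refine ⟨Or.inr hs, ?_⟩
        by_contra hcon
        push Not at hcon
        have h5 := hatt (G.src e) hs (G.tgt e) hcon.2 hcon.1
        exact G.adj_iff.1 ⟨e, Or.inl ⟨rfl, rfl⟩⟩ h5
      by_cases hm : j = m + 1
      · subst hm
        rw [pos_last] at hZ hne
        have hs : G.tgt e ∈ S := by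
          rcases hZ with h | h
          · exact absurd (by rw [h]) hne
          · exact h
        refine ⟨?_, Or.inr hs⟩
        by_contra hcon
        push Not at hcon
        have h5 := hatt (G.tgt e) hs (G.src e) hcon.2 hcon.1
        exact G.adj_iff.1 ⟨e, Or.inr ⟨rfl, rfl⟩⟩ h5
      · rw [G.pos_int m e (by omega) (by omega)] at hZ
        exact hZ
    have hZsrc : ∀ x, (G.subdivide m).src x ∈ Z → (G.subdivide m).src x ≠ Sum.inl c →
        (G.subdivide m).tgt x ∈ Z := by
      rintro ⟨e, j⟩ h5 h6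
      rw [sub_src] at h5 h6
      rw [sub_tgt]
      have hj := j.2
      exact hposZ e (hZpos e j (by omega) h5 h6) _ (by omega)
    have hZtgt : ∀ x, (G.subdivide m).tgt x ∈ Z → (G.subdivide m).tgt x ≠ Sum.inl c →
        (G.subdivide m).src x ∈ Z := by
      rintro ⟨e, j⟩ h5 h6
      rw [sub_tgt] at h5 h6
      rw [sub_src]
      have hj := j.2
      exact hposZ e (hZpos e (j + 1) (by omega) h5 h6) _ (by omega)
    have hcZ : Sum.inl c ∈ Z := Or.inl rfl
    obtain ⟨f, hfZ, hfE, hfred⟩ := exists_reduced (G.sub_connected m hG) ⟨_, hcZ⟩ hE0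
    obtain ⟨E1, hE1⟩ : ∃ E1 : V ⊕ E × Fin m → ℤ, E1 = fun q => E0 q -
      (G.subdivide m).lap f q := ⟨_, rfl⟩
    have hE1nn : ∀ q, 0 ≤ E1 q := by rw [hE1]; exact hfE
    have hfred1 : ∀ U : Set (V ⊕ E × Fin m), U.Nonempty → (∀ s ∈ U, s ∉ Z) →
        ¬ (G.subdivide m).Legal E1 U := by rw [hE1]; exact hfred
    have hlin : (G.subdivide m).LinEquiv E0 E1 := ⟨f, fun v => by rw [hE1]⟩
    have hsame : ∀ q ∈ Z, q ≠ Sum.inl c → E1 q = E0 q := by
      intro q hq hqc
      have h5 : (G.subdivide m).lap f q = 0 := by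
        rw [← (G.subdivide m).lap_const 0 q]
        apply lap_congr
        · exact hfZ q hq
        · rintro x rfl
          exact hfZ _ (hZsrc x hq hqc)
        · rintro x rfl
          exact hfZ _ (hZtgt x hq hqc)
      rw [hE1]
      simp only
      rw [h5, sub_zero]
    -- `E1` is reduced at `c`
    have hcred : ∀ U : Set (V ⊕ E × Fin m), U.Nonempty → Sum.inl c ∉ U →
        ¬ (G.subdivide m).Legal E1 U := by
      intro U hUne hcU hUleg
      by_cases hUZ : ∃ s ∈ U, s ∈ Z
      · obtain ⟨s, hs, hsZ⟩ := hUZ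
        refine hred (U ∩ Z) ⟨s, hs, hsZ⟩ ?_ ?_
        · rintro ⟨h5, h6⟩
          rcases h6 with h6 | h6
          · exact hcU (h6 ▸ h5)
          · exact hv0 h6
        · rintro q ⟨hqU, hqZ⟩
          have hqc : q ≠ Sum.inl c := fun h => hcU (h ▸ hqU)
          rw [← hsame q hqZ hqc]
          refine le_trans (le_of_eq ?_) (hUleg q hqU)
          have hin : ∀ y ∈ Z, ind (U ∩ Z) y = ind U y := by
            intro y hy
            by_cases hyU : y ∈ U
            · rw [ind_mem hyU, ind_mem (Set.mem_inter hyU hy)]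
            · rw [ind_notMem hyU, ind_notMem (fun h => hyU h.1)]
          apply lap_congr
          · exact hin q hqZ
          · rintro x rfl
            exact hin _ (hZsrc x hqZ hqc)
          · rintro x rfl
            exact hin _ (hZtgt x hqZ hqc)
      · push Not at hUZ
        exact hfred1 U hUne hUZ hUleg
    have hpS : p ∈ S := hL hp
    have hpc : (Sum.inl p : V ⊕ E × Fin m) ≠ Sum.inl c := fun h =>
      hcS ((Sum.inl_injective h) ▸ hpS)
    have hpE1 : E1 (Sum.inl p) = 0 := by
      rw [hsame _ (Or.inr hpS) hpc, hpE0]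
    obtain ⟨g, hg⟩ := ((hreach (Sum.inl p)).of_linEquiv (hlin.sub_right _)).script
    obtain ⟨U, hUne, hpU, hUleg⟩ := (G.subdivide m).exists_legal (D := E1) (f := g)
      (p := Sum.inl p)
      (fun v => by
        have h5 := hg v
        have h6 := chip_nonneg (Sum.inl p) v
        linarith)
      (by
        have h5 := hg (Sum.inl p)
        rw [chip_self, hpE1] at h5
        linarith)
    have hcU : Sum.inl c ∈ U := by
      by_contra hcon
      exact hcred U hUne hcon hUleg
    have h5 := block_count hcS hL h1 h2 hN hE1nn (fun x hx => by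
      rw [hsame _ (Or.inr (Finset.mem_sdiff.1 hx).1) (fun h =>
        hcS ((Sum.inl_injective h) ▸ (Finset.mem_sdiff.1 hx).1))]
      exact ih' x hx) hUleg hcU hp hpU
    rw [hlin.deg_eq] at h5
    exact h5

/-- On the subdivision of a quasi-banana graph on `k` vertices, divisors of positive rank have
degree at least `k`. -/
theorem QB.lower {v0 : V} (h : G.QB v0) {D : V ⊕ E × Fin m → ℤ}
    (hD : (G.subdivide m).RankGE D 1) : (Fintype.card V : ℤ) ≤ deg D := by
  have hcardpos : 1 ≤ Fintype.card V := Fintype.card_pos_iff.2 ⟨v0⟩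
  have hcardE : ((Finset.univ.erase v0).card : ℤ) = Fintype.card V - 1 := by
    rw [Finset.card_erase_of_mem (Finset.mem_univ _), Finset.card_univ]
    omega
  have hctx : G.Ctx v0 v0 (Finset.univ.erase v0) 1 := by
    refine ⟨by simp, ?_, ?_, le_rfl, ?_⟩
    · intro x _ y hy hyv
      exact absurd (Finset.mem_erase.2 ⟨hyv, Finset.mem_univ _⟩) hy
    · rw [hcardE]; ring
    · refine ⟨fun _ => 0, fun v => ?_⟩
      rw [lap_const, sub_zero]
      simp only
      by_cases hv : v = v0
      · subst hv
        rw [chip_self, ind_notMem (by simp)]; ring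
      · rw [chip_ne hv, ind_mem (by simpa using hv)]; ring
  have hchain := hctx.chain h _ _ rfl _ _
  -- an effective representative reduced at `v0`
  haveI : Nonempty (V ⊕ E × Fin m) := ⟨Sum.inl v0⟩
  obtain ⟨f0, hf0⟩ := (((G.subdivide m).rankGE_zero_iff).1
    ((G.subdivide m).rankGE_of_succ hD)).script
  obtain ⟨f1, -, hf1, hred⟩ := exists_reduced (G.sub_connected m h.conn)
    (Z := {Sum.inl v0}) (Set.singleton_nonempty _) hf0
  obtain ⟨E0, hE0⟩ : ∃ E0 : V ⊕ E × Fin m → ℤ, E0 = fun q => D q -
      (G.subdivide m).lap f0 q - (G.subdivide m).lap f1 q := ⟨_, rfl⟩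
  have hE0nn : ∀ q, 0 ≤ E0 q := by rw [hE0]; exact hf1
  have hlin : (G.subdivide m).LinEquiv D E0 := by
    refine ⟨fun v => f0 v + f1 v, fun v => ?_⟩
    rw [lap_add, hE0]; ring
  have hred' : ∀ U : Set (V ⊕ E × Fin m), U.Nonempty → Sum.inl v0 ∉ U →
      ¬ (G.subdivide m).Legal E0 U := by
    intro U hU hv
    rw [hE0]
    refine hred U hU fun s hs hsv => hv ?_
    rw [Set.mem_singleton_iff] at hsv
    rw [← hsv]; exact hs
  have hreach : ∀ q, (G.subdivide m).EquivEffective (fun q' => E0 q' - chip q q') := by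
    intro q
    exact (((G.subdivide m).rankGE_zero_iff).1 (((G.subdivide m).rankGE_succ_iff).1 hD q)).of_linEquiv
      (hlin.sub_right _)
  have hv0chip : 1 ≤ E0 (Sum.inl v0) := by
    by_contra hcon
    obtain ⟨g, hg⟩ := (hreach (Sum.inl v0)).script
    have h0 : E0 (Sum.inl v0) = 0 := by
      have := hE0nn (Sum.inl v0)
      omega
    obtain ⟨U, hUne, hpU, hUleg⟩ := (G.subdivide m).exists_legal (D := E0) (f := g)
      (p := Sum.inl v0)
      (fun v => by
        have h5 := hg v
        have h6 := chip_nonneg (Sum.inl v0) v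
        linarith)
      (by
        have h5 := hg (Sum.inl v0)
        rw [chip_self, h0] at h5
        linarith)
    exact hred' U hUne hpU hUleg
  have hmain := Chain.lower h.conn hE0nn hred' hreach hchain (by simp) (by simp) le_rfl
    hctx.att
  rw [← hlin.deg_eq]
  rcases hmain with h1 | h1
  · rw [hcardE] at h1
    linarith
  · -- all old vertices carry a chip
    have h2 : ∀ x : V, 1 ≤ E0 (Sum.inl x) := by
      intro x
      by_cases hx : x = v0
      · rw [hx]; exact hv0chip
      · exact h1 x (Finset.mem_erase.2 ⟨hx, Finset.mem_univ _⟩)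
    unfold deg
    rw [Fintype.sum_sum_type]
    have h3 : ∑ x : V, (1 : ℤ) ≤ ∑ x : V, E0 (Sum.inl x) :=
      Finset.sum_le_sum fun x _ => h2 x
    have h4 : 0 ≤ ∑ x : E × Fin m, E0 (Sum.inr x) :=
      Finset.sum_nonneg fun x _ => hE0nn _
    rw [Finset.sum_const, Finset.card_univ] at h3
    simp only [nsmul_eq_mul, mul_one] at h3
    linarith

end Lower

end MultiGraph

end Pool.Agent.MPf3e214
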