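import Pool.Agent.MPf3e214.Classify

set_option autoImplicit false
set_option linter.unusedSectionVars false
set_option linter.style.haveILetI false

namespace Pool.Agent.MPf3e214

namespace MultiGraph

section Pos

variable {V E : Type*} (G : MultiGraph V E) (m : ℕ)

/-- the `j`-th vertex on the path replacing `e` (`0 ≤ j ≤ m + 1`) -/
def pos (e : E) (j : ℕ) : V ⊕ E × Fin m :=
  if j = 0 then Sum.inl (G.src e) else
    if h : j - 1 < m then Sum.inr (e, ⟨j - 1, h⟩) else Sum.inl (G.tgt e)

lemma pos_zero (e : E) : G.pos m e 0 = Sum.inl (G.src e) := by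
  unfold pos; rw [if_pos rfl]

lemma pos_last (e : E) : G.pos m e (m + 1) = Sum.inl (G.tgt e) := by
  unfold pos
  rw [if_neg (by omega), dif_neg (by omega)]

lemma pos_succ (e : E) (i : Fin m) : G.pos m e (i + 1) = Sum.inr (e, i) := by
  unfold pos
  rw [if_neg (by omega), dif_pos (by have := i.2; omega)]
  congr 1

lemma pos_int (e : E) {j : ℕ} (h1 : 1 ≤ j) (h2 : j ≤ m) :
    G.pos m e j = Sum.inr (e, ⟨j - 1, by omega⟩) := by
  unfold pos
  rw [if_neg (by omega), dif_pos (by omega)]

lemma sub_src (e : E) (j : Fin (m + 1)) : (G.subdivide m).src (e, j) = G.pos m e j := by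
  induction j using Fin.cases with
  | zero =>
    show Fin.cases (motive := fun _ => V ⊕ E × Fin m) (Sum.inl (G.src e)) (fun i => Sum.inr (e, i)) (0 : Fin (m + 1)) = _
    rw [Fin.cases_zero, Fin.val_zero, pos_zero]
  | succ i =>
    show Fin.cases (motive := fun _ => V ⊕ E × Fin m) (Sum.inl (G.src e)) (fun i => Sum.inr (e, i)) i.succ = _
    rw [Fin.cases_succ, Fin.val_succ, pos_succ]

lemma sub_tgt (e : E) (j : Fin (m + 1)) : (G.subdivide m).tgt (e, j) = G.pos m e (j + 1) := by
  induction j using Fin.lastCases with
  | last =>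
    show Fin.lastCases (motive := fun _ => V ⊕ E × Fin m) (Sum.inl (G.tgt e)) (fun i => Sum.inr (e, i)) (Fin.last m) = _
    rw [Fin.lastCases_last, Fin.val_last, pos_last]
  | cast i =>
    show Fin.lastCases (motive := fun _ => V ⊕ E × Fin m) (Sum.inl (G.tgt e)) (fun i => Sum.inr (e, i)) i.castSucc = _
    rw [Fin.lastCases_castSucc, Fin.val_castSucc, pos_succ]

lemma pos_eq_int {e e' : E} {j j' : ℕ} (h1 : 1 ≤ j) (h2 : j ≤ m) (h3 : j' ≤ m + 1)
    (h : G.pos m e' j' = G.pos m e j) : e' = e ∧ j' = j := by
  rw [G.pos_int m e h1 h2] at h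
  rcases Nat.eq_zero_or_pos j' with h4 | h4
  · subst h4
    rw [pos_zero] at h
    cases h
  · rcases Nat.lt_or_ge m j' with h5 | h5
    · have h6 : j' = m + 1 := by omega
      subst h6
      rw [pos_last] at h
      cases h
    · rw [G.pos_int m e' h4 h5] at h
      have h7 := Sum.inr_injective h
      have h8 := Prod.mk.inj h7
      refine ⟨h8.1, ?_⟩
      have h9 := congrArg Fin.val h8.2
      simp only at h9
      omega

lemma pos_inj {e : E} {j j' : ℕ} (h2 : j ≤ m + 1) (h3 : j' ≤ m + 1)
    (h : G.pos m e j' = G.pos m e j) : j' = j := by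
  by_cases h4 : 1 ≤ j ∧ j ≤ m
  · exact (G.pos_eq_int m h4.1 h4.2 h3 h).2
  by_cases h5 : 1 ≤ j' ∧ j' ≤ m
  · exact (G.pos_eq_int m h5.1 h5.2 h2 h.symm).2.symm
  have h6 : j = 0 ∨ j = m + 1 := by omega
  have h7 : j' = 0 ∨ j' = m + 1 := by omega
  rcases h6 with rfl | rfl <;> rcases h7 with rfl | rfl
  · rfl
  · rw [pos_zero, pos_last] at h
    exact absurd (Sum.inl_injective h).symm (G.loopless e)
  · rw [pos_zero, pos_last] at h
    exact absurd (Sum.inl_injective h) (G.loopless e)
  · rfl

lemma adj_pos (e : E) {j : ℕ} (hj : j ≤ m) :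
    (G.subdivide m).Adj (G.pos m e j) (G.pos m e (j + 1)) := by
  refine ⟨(e, ⟨j, by omega⟩), Or.inl ⟨?_, ?_⟩⟩
  · rw [sub_src]
  · rw [sub_tgt]

lemma adj_symm' {x y : V} (h : G.Adj x y) : G.Adj y x := by
  obtain ⟨e, he⟩ := h
  exact ⟨e, he.symm⟩

lemma sub_connected (hG : G.Connected) : (G.subdivide m).Connected := by
  obtain ⟨⟨x0⟩, hG⟩ := hG
  refine ⟨⟨Sum.inl x0⟩, ?_⟩
  have hsym : ∀ x y, Relation.ReflTransGen (G.subdivide m).Adj x y →
      Relation.ReflTransGen (G.subdivide m).Adj y x := by
    intro x y h
    induction h with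
    | refl => exact Relation.ReflTransGen.refl
    | tail _ hab ih => exact Relation.ReflTransGen.head (adj_symm' _ hab) ih
  have h1 : ∀ e : E, ∀ j, j ≤ m + 1 →
      Relation.ReflTransGen (G.subdivide m).Adj (G.pos m e 0) (G.pos m e j) := by
    intro e j
    induction j with
    | zero => intro _; exact Relation.ReflTransGen.refl
    | succ j ih =>
      intro hj
      exact (ih (by omega)).tail (G.adj_pos m e (by omega))
  have h2 : ∀ x y : V, Relation.ReflTransGen G.Adj x y →
      Relation.ReflTransGen (G.subdivide m).Adj (Sum.inl x) (Sum.inl y) := by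
    intro x y h
    induction h with
    | refl => exact Relation.ReflTransGen.refl
    | tail _ hab ih =>
      refine ih.trans ?_
      obtain ⟨e, he⟩ := hab
      have h3 := h1 e (m + 1) le_rfl
      rw [pos_zero, pos_last] at h3
      rcases he with ⟨ha, hb⟩ | ⟨ha, hb⟩
      · rw [ha, hb] at h3; exact h3
      · rw [ha, hb] at h3; exact hsym _ _ h3
  have h3 : ∀ q : V ⊕ E × Fin m,
      Relation.ReflTransGen (G.subdivide m).Adj (Sum.inl x0) q := by
    rintro (x | ⟨e, i⟩)
    · exact h2 _ _ (hG x0 x)
    · refine (h2 _ _ (hG x0 (G.src e))).trans ?_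
      have h4 := h1 e (i + 1) (by have := i.2; omega)
      rw [pos_zero, pos_succ] at h4
      exact h4
  intro x y
  exact (hsym _ _ (h3 x)).trans (h3 y)

end Pos

section Lap

variable {V E : Type*} (G : MultiGraph V E) [Fintype V] [Fintype E] [DecidableEq V]
  [DecidableEq E] (m : ℕ)

/-- the Laplacian of the subdivision as a double sum -/
lemma lap_sub_eq (F : V ⊕ E × Fin m → ℤ) (q : V ⊕ E × Fin m) :
    (G.subdivide m).lap F q = ∑ e, ∑ j : Fin (m + 1),
      ((if G.pos m e j = q then F q - F (G.pos m e (j + 1)) else 0) +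
        (if G.pos m e (j + 1) = q then F q - F (G.pos m e j) else 0)) := by
  unfold lap
  rw [Fintype.sum_prod_type]
  refine Finset.sum_congr rfl fun e _ => Finset.sum_congr rfl fun j _ => ?_
  rw [sub_src, sub_tgt]

/-- the linear interpolation of `(m + 1) f` along the subdivided edges -/
def interp (f : V → ℤ) : V ⊕ E × Fin m → ℤ
  | Sum.inl v => (m + 1) * f v
  | Sum.inr (e, i) => (m + 1) * f (G.src e) + ((i : ℕ) + 1) * (f (G.tgt e) - f (G.src e))

lemma interp_pos (f : V → ℤ) (e : E) {j : ℕ} (hj : j ≤ m + 1) :
    G.interp m f (G.pos m e j) = (m + 1) * f (G.src e) + j * (f (G.tgt e) - f (G.src e)) := by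
  by_cases h0 : j = 0
  · subst h0
    rw [pos_zero]
    simp [interp]
  by_cases h1 : j = m + 1
  · subst h1
    rw [pos_last]
    simp only [interp]
    push_cast
    ring
  · rw [G.pos_int m e (by omega) (by omega)]
    simp only [interp]
    have : ((j - 1 : ℕ) : ℤ) = j - 1 := by
      rw [Nat.cast_sub (by omega)]; simp
    rw [this]
    ring

lemma lap_interp_inl (f : V → ℤ) (v : V) :
    (G.subdivide m).lap (G.interp m f) (Sum.inl v) = G.lap f v := by
  rw [lap_sub_eq]
  unfold lap
  refine Finset.sum_congr rfl fun e _ => ?_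
  rw [Finset.sum_add_distrib]
  congr 1
  · rw [Finset.sum_eq_single (0 : Fin (m + 1))]
    · rw [Fin.val_zero, pos_zero]
      by_cases h : G.src e = v
      · rw [if_pos (by rw [h]), if_pos h, G.interp_pos m f e (by omega)]
        rw [h]
        simp only [interp]
        push_cast
        ring
      · rw [if_neg (fun h' => h (Sum.inl_injective h')), if_neg h]
    · intro j _ hj
      rw [if_neg]
      intro h
      have hj0 : (j : ℕ) ≠ 0 := fun h' => hj (Fin.ext h')
      rw [G.pos_int m e (by omega) (by have := j.2; omega)] at h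
      cases h
    · intro h; exact absurd (Finset.mem_univ _) h
  · rw [Finset.sum_eq_single (Fin.last m)]
    · rw [Fin.val_last, pos_last]
      by_cases h : G.tgt e = v
      · rw [if_pos (by rw [h]), if_pos h, G.interp_pos m f e (by omega)]
        rw [h]
        simp only [interp]
        ring
      · rw [if_neg (fun h' => h (Sum.inl_injective h')), if_neg h]
    · intro j _ hj
      rw [if_neg]
      intro h
      have hj0 : (j : ℕ) ≠ m := fun h' => hj (Fin.ext (by rw [h', Fin.val_last]))
      rw [G.pos_int m e (by omega) (by have := j.2; omega)] at h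
      cases h
    · intro h; exact absurd (Finset.mem_univ _) h

lemma lap_interp_inr (f : V → ℤ) (e : E) (i : Fin m) :
    (G.subdivide m).lap (G.interp m f) (Sum.inr (e, i)) = 0 := by
  rw [lap_sub_eq]
  have hi := i.2
  have hpos : (Sum.inr (e, i) : V ⊕ E × Fin m) = G.pos m e (i + 1) := (G.pos_succ m e i).symm
  rw [hpos]
  rw [Finset.sum_eq_single e]
  · rw [Finset.sum_add_distrib]
    rw [Finset.sum_eq_single i.succ, Finset.sum_eq_single i.castSucc]
    · rw [Fin.val_succ, Fin.val_castSucc, if_pos rfl, if_pos rfl,
        G.interp_pos m f e (by omega), G.interp_pos m f e (by omega),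
        G.interp_pos m f e (by omega)]
      push_cast
      ring
    · intro j _ hj
      rw [if_neg]
      intro h
      apply hj
      have h1 := G.pos_inj m (by omega) (by have := j.2; omega) h
      apply Fin.ext
      rw [Fin.val_castSucc]
      omega
    · intro h; exact absurd (Finset.mem_univ _) h
    · intro j _ hj
      rw [if_neg]
      intro h
      apply hj
      have h1 := G.pos_inj m (by omega) (by have := j.2; omega) h
      apply Fin.ext
      rw [Fin.val_succ]
      omega
    · intro h; exact absurd (Finset.mem_univ _) h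
  · intro e' _ he'
    apply Finset.sum_eq_zero
    intro j _
    rw [if_neg, if_neg, add_zero]
    · intro h
      exact he' (G.pos_eq_int m (by omega) (by omega) (by have := j.2; omega) h).1
    · intro h
      exact he' (G.pos_eq_int m (by omega) (by omega) (by have := j.2; omega) h).1
  · intro h; exact absurd (Finset.mem_univ _) h

lemma extend_equivEffective {D : V → ℤ} (h : G.EquivEffective D) :
    (G.subdivide m).EquivEffective (extend (E := E) m D) := by
  obtain ⟨f, hf⟩ := h.script
  refine equivEffective_of_script _ (G.interp m f) ?_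
  rintro (v | ⟨e, i⟩)
  · rw [lap_interp_inl]
    exact hf v
  · rw [lap_interp_inr]
    simp [extend]

/-! ### Reachability of interior vertices -/

/-- a walk without chips from a reachable vertex cannot end at the base of a reduced divisor -/
lemma walk_no_chip {W F : Type*} (H : MultiGraph W F) [Fintype W] [Fintype F] [DecidableEq W]
    {D : W → ℤ} {p : W} (hred : ∀ S : Set W, S.Nonempty → (∀ s ∈ S, s ∉ ({p} : Set W)) →
      ¬ H.Legal D S) (P : ℕ → W) (n : ℕ) (hP : ∀ j, j < n → H.Adj (P j) (P (j + 1)))
    (h0 : ∀ j, j ≤ n → D (P j) = 0) (hn : P n = p)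
    (hx : H.EquivEffective (fun v => D v - chip (P 0) v)) : False := by
  obtain ⟨f, hf⟩ := hx.script
  obtain ⟨S, hS, hPS, hleg⟩ := H.exists_legal (D := D) (f := f) (p := P 0)
    (fun v => by
      have h1 := hf v
      have h2 := chip_nonneg (P 0) v
      linarith)
    (by
      have h1 := hf (P 0)
      have h2 := h0 0 (Nat.zero_le _)
      rw [chip_self] at h1
      linarith)
  have hpS : p ∈ S := by
    by_contra hcon
    refine hred S hS (fun s hs hsp => hcon ?_) hleg
    rw [Set.mem_singleton_iff] at hsp
    rw [← hsp]; exact hs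
  have hall : ∀ j, j ≤ n → P j ∉ S := by
    intro j
    induction j with
    | zero => intro _; exact hPS
    | succ j ih =>
      intro hj hcon
      have h1 := ih (by omega)
      have h2 := H.lap_ind_pos hcon h1 (H.adj_symm' (hP j (by omega)))
      have h3 := hleg _ hcon
      rw [h0 (j + 1) hj] at h3
      linarith
  exact hall n le_rfl (hn ▸ hpS)

/-- If a divisor on the subdivision reaches all old vertices then it reaches all vertices. -/
lemma hkn {D : V ⊕ E × Fin m → ℤ} (hG : G.Connected)
    (h : ∀ x : V, (G.subdivide m).EquivEffective (fun q => D q - chip (Sum.inl x) q)) :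
    ∀ q, (G.subdivide m).EquivEffective (fun q' => D q' - chip q q') := by
  rintro (x | ⟨e, i⟩)
  · exact h x
  by_contra hcon
  have hi := i.2
  obtain ⟨f0, hf0⟩ := (h (G.src e)).script
  obtain ⟨f1, -, hf1, hred⟩ := exists_reduced (G.sub_connected m hG)
    (Z := {Sum.inr (e, i)}) (Set.singleton_nonempty _)
    (D := fun v => D v - (G.subdivide m).lap f0 v) (fun v => by
      have h1 := hf0 v
      have h2 := chip_nonneg (Sum.inl (G.src e)) v
      linarith)
  obtain ⟨D1, hD1⟩ : ∃ D1 : V ⊕ E × Fin m → ℤ, D1 = fun v => D v -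
    (G.subdivide m).lap f0 v - (G.subdivide m).lap f1 v := ⟨_, rfl⟩
  have hD1nn : ∀ v, 0 ≤ D1 v := by rw [hD1]; exact hf1
  have hred1 : ∀ S : Set (V ⊕ E × Fin m), S.Nonempty → (∀ s ∈ S, s ∉ ({Sum.inr (e, i)} :
      Set (V ⊕ E × Fin m))) → ¬ (G.subdivide m).Legal D1 S := by rw [hD1]; exact hred
  have hlin : (G.subdivide m).LinEquiv D D1 := by
    refine ⟨fun v => f0 v + f1 v, fun v => ?_⟩
    rw [lap_add, hD1]; ring
  have hDp : D1 (Sum.inr (e, i)) = 0 := by
    by_contra hne
    have h1 : 1 ≤ D1 (Sum.inr (e, i)) := by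
      have := hD1nn (Sum.inr (e, i))
      omega
    apply hcon
    refine EquivEffective.of_linEquiv (hlin.symm.sub_right (chip (Sum.inr (e, i)))) ?_
    refine equivEffective_of_script _ (fun _ => 0) fun v => ?_
    rw [lap_const]
    by_cases hv : v = Sum.inr (e, i)
    · rw [hv, chip_self]; linarith
    · rw [chip_ne hv]
      have := hD1nn v
      linarith
  have hr1 : ∀ x : V, (G.subdivide m).EquivEffective (fun q => D1 q - chip (Sum.inl x) q) :=
    fun x => (h x).of_linEquiv (hlin.sub_right _)
  have hpp : G.pos m e (i + 1) = Sum.inr (e, i) := G.pos_succ m e i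
  -- a chip before `p`
  have hA : ∃ a, a ≤ (i : ℕ) ∧ 1 ≤ D1 (G.pos m e a) := by
    by_contra hno
    push Not at hno
    refine walk_no_chip (G.subdivide m) hred1 (fun j => G.pos m e j) (i + 1)
      (fun j hj => G.adj_pos m e (by omega)) ?_ hpp ?_
    · intro j hj
      rcases Nat.lt_or_ge (i : ℕ) j with h1 | h1
      · have : j = i + 1 := by omega
        subst this
        rw [hpp]; exact hDp
      · have h2 := hno j h1
        have h3 := hD1nn (G.pos m e j)
        omega
    · rw [pos_zero]
      exact hr1 (G.src e)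
  have hB : ∃ b, (i : ℕ) + 2 ≤ b ∧ b ≤ m + 1 ∧ 1 ≤ D1 (G.pos m e b) := by
    by_contra hno
    push Not at hno
    refine walk_no_chip (G.subdivide m) hred1 (fun j => G.pos m e (m + 1 - j)) (m - i)
      (fun j hj => ?_) ?_ ?_ ?_
    · have h1 := G.adj_pos m e (j := m + 1 - (j + 1)) (by omega)
      have h2 : m + 1 - (j + 1) + 1 = m + 1 - j := by omega
      rw [h2] at h1
      exact adj_symm' _ h1
    · intro j hj
      rcases Nat.lt_or_ge (m + 1 - j) ((i : ℕ) + 2) with h1 | h1
      · have h4 : m + 1 - j = i + 1 := by omega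
        rw [h4, hpp]; exact hDp
      · have h2 := hno (m + 1 - j) h1 (by omega)
        have h3 := hD1nn (G.pos m e (m + 1 - j))
        omega
    · have h4 : m + 1 - (m - (i : ℕ)) = i + 1 := by omega
      rw [h4, hpp]
    · rw [Nat.sub_zero, pos_last]
      exact hr1 (G.tgt e)
  obtain ⟨a, ha, haD, hamax⟩ : ∃ a, a ≤ (i : ℕ) ∧ 1 ≤ D1 (G.pos m e a) ∧
      ∀ a', a' ≤ (i : ℕ) → 1 ≤ D1 (G.pos m e a') → a' ≤ a := by
    obtain ⟨a0, ha0, ha0D⟩ := hA
    obtain ⟨a, ha, hmax⟩ := Finset.exists_max_image
      ((Finset.range (i + 1)).filter (fun a => 1 ≤ D1 (G.pos m e a))) id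
      ⟨a0, by simp only [Finset.mem_filter, Finset.mem_range]; exact ⟨by omega, ha0D⟩⟩
    simp only [Finset.mem_filter, Finset.mem_range] at ha hmax
    exact ⟨a, by omega, ha.2, fun a' h1 h2 => hmax a' ⟨by omega, h2⟩⟩
  obtain ⟨b, hb1, hb2, hbD, hbmin⟩ : ∃ b, (i : ℕ) + 2 ≤ b ∧ b ≤ m + 1 ∧
      1 ≤ D1 (G.pos m e b) ∧
      ∀ b', (i : ℕ) + 2 ≤ b' → b' ≤ m + 1 → 1 ≤ D1 (G.pos m e b') → b ≤ b' := by
    obtain ⟨b0, hb0, hb0', hb0D⟩ := hB
    obtain ⟨b, hb, hmin⟩ := Finset.exists_min_image
      ((Finset.range (m + 2)).filter (fun a => (i : ℕ) + 2 ≤ a ∧ 1 ≤ D1 (G.pos m e a))) id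
      ⟨b0, by simp only [Finset.mem_filter, Finset.mem_range]; exact ⟨by omega, hb0, hb0D⟩⟩
    simp only [Finset.mem_filter, Finset.mem_range] at hb hmin
    exact ⟨b, hb.2.1, by omega, hb.2.2, fun b' h1 h2 h3 => hmin b' ⟨by omega, h1, h3⟩⟩
  -- fire everything except the open interval between `a` and `b`
  let S : Set (V ⊕ E × Fin m) := {v | ∀ j, a < j → j < b → v ≠ G.pos m e j}
  have hposS : ∀ j, j ≤ m + 1 → (G.pos m e j ∈ S ↔ ¬ (a < j ∧ j < b)) := by
    intro j hj
    constructor
    · rintro h1 ⟨h2, h3⟩
      exact h1 j h2 h3 rfl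
    · intro h1 j' h2 h3 h4
      have h5 := G.pos_inj m (by omega) hj h4
      subst h5
      exact h1 ⟨h2, h3⟩
  have haS : G.pos m e a ∈ S := (hposS a (by omega)).2 (by omega)
  refine hred1 S ⟨_, haS⟩ ?_ ?_
  · intro s hs hsp
    rw [Set.mem_singleton_iff] at hsp
    subst hsp
    exact hs (i + 1) (by omega) (by omega) hpp.symm
  · intro s hs
    have habne : G.pos m e a ≠ G.pos m e b := by
      intro h'
      have := G.pos_inj m (by omega) (by omega) h'
      omega
    have hbound : (G.subdivide m).lap (ind S) s ≤
        (if s = G.pos m e a then 1 else 0) + (if s = G.pos m e b then 1 else 0) := by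
      rw [lap_sub_eq]
      have hterm : ∀ e' (j : Fin (m + 1)),
          ((if G.pos m e' j = s then ind S s - ind S (G.pos m e' (j + 1)) else 0) +
          (if G.pos m e' (j + 1) = s then ind S s - ind S (G.pos m e' j) else 0)) ≤
          (if (e', j) = (e, (⟨a, by omega⟩ : Fin (m + 1))) then
            (if s = G.pos m e a then (1 : ℤ) else 0) else 0) +
          (if (e', j) = (e, (⟨b - 1, by omega⟩ : Fin (m + 1))) then
            (if s = G.pos m e b then (1 : ℤ) else 0) else 0) := by
        intro e' j
        have hj := j.2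
        apply add_le_add
        · by_cases h1 : G.pos m e' j = s
          · rw [if_pos h1, ind_mem hs]
            by_cases h2 : G.pos m e' (j + 1) ∈ S
            · rw [ind_mem h2]
              split_ifs <;> norm_num
            · have h3 : ∃ j', a < j' ∧ j' < b ∧ G.pos m e' (j + 1) = G.pos m e j' := by
                by_contra hno
                apply h2
                intro j' h4 h5 h6
                exact hno ⟨j', h4, h5, h6⟩
              obtain ⟨j', h4, h5, h6⟩ := h3
              obtain ⟨h7, h8⟩ := G.pos_eq_int m (by omega) (by omega) (by omega) h6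
              subst h7
              have h9 : (j : ℕ) = a := by
                have h10 := (hposS j (by omega)).1 (h1 ▸ hs)
                omega
              have h11 : j = (⟨a, by omega⟩ : Fin (m + 1)) := Fin.ext h9
              rw [ind_notMem h2, if_pos (by rw [h11]), if_pos (by rw [← h1, h9])]
              norm_num
          · rw [if_neg h1]
            split_ifs <;> norm_num
        · by_cases h1 : G.pos m e' (j + 1) = s
          · rw [if_pos h1, ind_mem hs]
            by_cases h2 : G.pos m e' j ∈ S
            · rw [ind_mem h2]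
              split_ifs <;> norm_num
            · have h3 : ∃ j', a < j' ∧ j' < b ∧ G.pos m e' j = G.pos m e j' := by
                by_contra hno
                apply h2
                intro j' h4 h5 h6
                exact hno ⟨j', h4, h5, h6⟩
              obtain ⟨j', h4, h5, h6⟩ := h3
              obtain ⟨h7, h8⟩ := G.pos_eq_int m (by omega) (by omega) (by omega) h6
              subst h7
              have h9 : (j : ℕ) + 1 = b := by
                have h10 := (hposS (j + 1) (by omega)).1 (h1 ▸ hs)
                omega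
              have h11 : j = (⟨b - 1, by omega⟩ : Fin (m + 1)) := Fin.ext (by
                simp only
                omega)
              rw [ind_notMem h2, if_pos (by rw [h11]), if_pos (by rw [← h1, h9])]
              norm_num
          · rw [if_neg h1]
            split_ifs <;> norm_num
      refine le_trans (Finset.sum_le_sum fun e' _ => Finset.sum_le_sum fun j _ => hterm e' j) ?_
      rw [← Fintype.sum_prod_type (f := fun x : E × Fin (m + 1) =>
        (if x = (e, (⟨a, by omega⟩ : Fin (m + 1))) then
            (if s = G.pos m e a then (1 : ℤ) else 0) else 0) +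
          (if x = (e, (⟨b - 1, by omega⟩ : Fin (m + 1))) then
            (if s = G.pos m e b then (1 : ℤ) else 0) else 0))]
      rw [Finset.sum_add_distrib, Finset.sum_ite_eq', Finset.sum_ite_eq',
        if_pos (Finset.mem_univ _), if_pos (Finset.mem_univ _)]
    refine le_trans hbound ?_
    by_cases h1 : s = G.pos m e a
    · rw [if_pos h1, if_neg (by rw [h1]; exact habne), h1]
      linarith
    · rw [if_neg h1]
      by_cases h2 : s = G.pos m e b
      · rw [if_pos h2, h2]
        linarith
      · rw [if_neg h2]
        have := hD1nn s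
        linarith

/-- the rank on the subdivision can be checked with effective divisors on the old vertices -/
lemma rankGE_of_old (hG : G.Connected) : ∀ (r : ℕ) (X : V ⊕ E × Fin m → ℤ),
    (∀ F : V → ℤ, (∀ v, 0 ≤ F v) → deg F = r →
      (G.subdivide m).EquivEffective (fun q => X q - extend m F q)) →
    (G.subdivide m).RankGE X r := by
  intro r
  induction r with
  | zero =>
    intro X h
    rw [rankGE_zero_iff]
    refine (h (fun _ => 0) (fun _ => le_rfl) (by unfold deg; simp)).mono fun q => ?_
    rcases q with x | x <;> simp [extend]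
  | succ r ih =>
    intro X h
    rw [rankGE_succ_iff]
    intro q
    apply ih
    intro F hF hFr
    have h1 := G.hkn m (D := fun q => X q - extend m F q) hG (fun x => by
      refine (h (fun v => F v + chip x v) (fun v => add_nonneg (hF v) (chip_nonneg x v))
        (by rw [deg_add, deg_chip, hFr]; push_cast; ring)).mono fun q => ?_
      rcases q with y | y
      · simp only [extend, Sum.elim_inl]
        have : chip (Sum.inl x : V ⊕ E × Fin m) (Sum.inl y) = chip x y := by
          unfold chip
          by_cases hxy : y = x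
          · rw [if_pos hxy, if_pos (by rw [hxy])]
          · rw [if_neg hxy, if_neg (fun h => hxy (Sum.inl_injective h))]
        rw [this]
        linarith
      · simp only [extend, Sum.elim_inr]
        rw [chip_ne (by intro h; cases h)]
        linarith) q
    exact h1.mono fun q' => by linarith

/-- extension of divisors does not lower the rank -/
lemma rankGE_extend (hG : G.Connected) {D : V → ℤ} {r : ℕ} (h : G.RankGE D r) :
    (G.subdivide m).RankGE (extend m D) r := by
  apply G.rankGE_of_old m hG
  intro F hF hFr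
  refine (G.extend_equivEffective m (h F hF hFr)).mono fun q => ?_
  rcases q with y | y <;> simp [extend]

lemma deg_extend (D : V → ℤ) : deg (extend (E := E) m D) = deg D := by
  unfold deg
  rw [Fintype.sum_sum_type]
  simp [extend]

end Lap

end MultiGraph

end Pool.Agent.MPf3e214
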